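import Mathlib

/-!
Analysis of closed profile curves `(r, z)` in the open half plane `r > 0`.
-/

open MeasureTheory Real Set Filter Topology intervalIntegral

namespace Pool.Agent.Lib.MP_bea121_gt

/-- Regular `C^2` profile data: `r1, z1` are the first and `r2, z2` the second derivatives. -/
structure Prof (r r1 r2 z z1 z2 : ℝ → ℝ) : Prop where
  hr : ∀ x, HasDerivAt r (r1 x) x
  hr1 : ∀ x, HasDerivAt r1 (r2 x) x
  hr2 : Continuous r2
  hz : ∀ x, HasDerivAt z (z1 x) x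
  hz1 : ∀ x, HasDerivAt z1 (z2 x) x
  hz2 : Continuous z2
  pos : ∀ x, 0 < r x
  reg : ∀ x, 0 < r1 x ^ 2 + z1 x ^ 2

lemma abs_sub_le_of_deriv_bound {G k : ℝ → ℝ} (hk : Continuous k)
    (h : ∀ x, ∃ d, HasDerivAt G d x ∧ |d| ≤ k x) {a b : ℝ} (hab : a ≤ b) :
    |G b - G a| ≤ ∫ x in a..b, k x := by
  have hΦ : ∀ x, HasDerivAt (fun x => ∫ t in a..x, k t) (k x) x := fun x =>
    (hk.integral_hasStrictDerivAt a x).hasDerivAt
  have m1 : Monotone (fun x => (∫ t in a..x, k t) - G x) := by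
    apply monotone_of_deriv_nonneg
    · intro x
      obtain ⟨d, hd, _⟩ := h x
      exact ((hΦ x).fun_sub hd).differentiableAt
    · intro x
      obtain ⟨d, hd, hb⟩ := h x
      rw [((hΦ x).fun_sub hd).deriv]
      have := abs_le.1 hb
      linarith
  have m2 : Monotone (fun x => (∫ t in a..x, k t) + G x) := by
    apply monotone_of_deriv_nonneg
    · intro x
      obtain ⟨d, hd, _⟩ := h x
      exact ((hΦ x).fun_add hd).differentiableAt
    · intro x
      obtain ⟨d, hd, hb⟩ := h x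
      rw [((hΦ x).fun_add hd).deriv]
      have := abs_le.1 hb
      linarith
  have e1 := m1 hab
  have e2 := m2 hab
  simp only [integral_same] at e1 e2
  rw [abs_le]
  constructor <;> linarith

lemma abs_sub_le_integral {g g' : ℝ → ℝ} (hg : ∀ x, HasDerivAt g (g' x) x) (hc : Continuous g')
    {a b : ℝ} (hab : a ≤ b) : |g b - g a| ≤ ∫ x in a..b, |g' x| := by
  have h : ∫ x in a..b, g' x = g b - g a :=
    integral_eq_sub_of_hasDerivAt (fun x _ => hg x) (hc.intervalIntegrable _ _)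
  rw [← h]
  exact abs_integral_le_integral_abs hab

namespace Prof

variable {r r1 r2 z z1 z2 : ℝ → ℝ}

/-- speed -/
noncomputable def sp (r1 z1 : ℝ → ℝ) (x : ℝ) : ℝ := √(r1 x ^ 2 + z1 x ^ 2)

/-- the density whose absolute value integrates to the total absolute mean curvature over `π` -/
noncomputable def hf (r r1 r2 z1 z2 : ℝ → ℝ) (x : ℝ) : ℝ :=
  z1 x + r x * (r1 x * z2 x - r2 x * z1 x) / (r1 x ^ 2 + z1 x ^ 2)

noncomputable def pf (r r1 z1 : ℝ → ℝ) (x : ℝ) : ℝ := r x * z1 x / sp r1 z1 x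
noncomputable def qf (r r1 z1 : ℝ → ℝ) (x : ℝ) : ℝ := r x * r1 x / sp r1 z1 x

variable (P : Prof r r1 r2 z z1 z2)
include P

lemma sp_pos (x : ℝ) : 0 < sp r1 z1 x := Real.sqrt_pos.2 (P.reg x)

lemma sp_sq (x : ℝ) : sp r1 z1 x ^ 2 = r1 x ^ 2 + z1 x ^ 2 := Real.sq_sqrt (P.reg x).le

lemma cont_r : Continuous r := continuous_iff_continuousAt.2 fun x => (P.hr x).continuousAt
lemma cont_z : Continuous z := continuous_iff_continuousAt.2 fun x => (P.hz x).continuousAt
lemma cont_r1 : Continuous r1 := continuous_iff_continuousAt.2 fun x => (P.hr1 x).continuousAt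
lemma cont_z1 : Continuous z1 := continuous_iff_continuousAt.2 fun x => (P.hz1 x).continuousAt

lemma cont_sp : Continuous (sp r1 z1) := by
  have h1 := P.cont_r1
  have h2 := P.cont_z1
  unfold sp
  fun_prop

lemma cont_hf : Continuous (hf r r1 r2 z1 z2) := by
  have h1 := P.cont_r1
  have h2 := P.cont_z1
  have h3 := P.cont_r
  have h4 := P.hr2
  have h5 := P.hz2
  unfold hf
  refine h2.add (Continuous.div (by fun_prop) (by fun_prop) ?_)
  intro x
  exact (P.reg x).ne'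

lemma cont_pf : Continuous (pf r r1 z1) := by
  have h1 := P.cont_r1
  have h2 := P.cont_z1
  have h3 := P.cont_r
  have h4 := P.cont_sp
  unfold pf
  exact Continuous.div (by fun_prop) h4 fun x => (P.sp_pos x).ne'

lemma sp_deriv (x : ℝ) : HasDerivAt (sp r1 z1) ((r1 x * r2 x + z1 x * z2 x) / sp r1 z1 x) x := by
  have h := (((P.hr1 x).pow 2).add ((P.hz1 x).pow 2)).sqrt (P.reg x).ne'
  refine h.congr_deriv ?_
  have hp := P.sp_pos x
  have e : √((r1 ^ 2 + z1 ^ 2) x) = sp r1 z1 x := rfl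
  rw [e, div_eq_div_iff (by positivity) hp.ne']
  push_cast
  ring

lemma pf_deriv (x : ℝ) :
    HasDerivAt (pf r r1 z1) (r1 x / sp r1 z1 x * hf r r1 r2 z1 z2 x) x := by
  have h := ((P.hr x).mul (P.hz1 x)).div (P.sp_deriv x) (P.sp_pos x).ne'
  refine h.congr_deriv ?_
  have hp := P.sp_pos x
  have hs := P.sp_sq x
  have hreg := P.reg x
  unfold hf
  rw [← hs]
  field_simp
  simp only [Pi.mul_apply]
  rw [hs]
  ring

lemma qf_deriv (x : ℝ) :
    HasDerivAt (qf r r1 z1) (sp r1 z1 x - z1 x / sp r1 z1 x * hf r r1 r2 z1 z2 x) x := by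
  have h := ((P.hr x).mul (P.hr1 x)).div (P.sp_deriv x) (P.sp_pos x).ne'
  refine h.congr_deriv ?_
  have hp := P.sp_pos x
  have hs := P.sp_sq x
  have hreg := P.reg x
  unfold hf
  rw [← hs]
  field_simp
  simp only [Pi.mul_apply]
  have h4 : sp r1 z1 x ^ 4 = (r1 x ^ 2 + z1 x ^ 2) ^ 2 := by
    rw [← hs]; ring
  ring_nf
  rw [h4, hs]
  ring

lemma abs_z1_div_le (x : ℝ) : |z1 x / sp r1 z1 x| ≤ 1 := by
  have hp := P.sp_pos x
  rw [abs_div, abs_of_pos hp, div_le_one hp, ← Real.sqrt_sq_eq_abs]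
  exact Real.sqrt_le_sqrt (by nlinarith [sq_nonneg (r1 x)])

lemma arcsin_deriv_bound {R : ℝ} (hR : ∀ x, r x < R) (x : ℝ) :
    ∃ d, HasDerivAt (fun x => R * arcsin (pf r r1 z1 x / R)) d x ∧
      |d| ≤ |hf r r1 r2 z1 z2 x| := by
  have hRpos : 0 < R := lt_trans (P.pos x) (hR x)
  have hp := P.sp_pos x
  have hs := P.sp_sq x
  have hrpos := P.pos x
  set s := sp r1 z1 x with hsdef
  -- `p^2 ≤ R^2 z1^2 / s^2`
  have key : R ^ 2 * (r1 x / s) ^ 2 ≤ R ^ 2 - pf r r1 z1 x ^ 2 := by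
    have e : pf r r1 z1 x ^ 2 = r x ^ 2 * z1 x ^ 2 / s ^ 2 := by
      simp only [pf, ← hsdef]; ring
    rw [e]
    have h1 : r x ^ 2 * z1 x ^ 2 / s ^ 2 ≤ R ^ 2 * z1 x ^ 2 / s ^ 2 := by
      have : r x ^ 2 ≤ R ^ 2 := by
        have := (hR x).le
        nlinarith
      gcongr
    have h2 : R ^ 2 * (r1 x / s) ^ 2 + R ^ 2 * z1 x ^ 2 / s ^ 2 = R ^ 2 := by
      rw [div_pow]
      field_simp
      rw [hs]
    linarith
  have hlt : pf r r1 z1 x ^ 2 < R ^ 2 := by
    have e : pf r r1 z1 x ^ 2 = r x ^ 2 * z1 x ^ 2 / s ^ 2 := by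
      simp only [pf, ← hsdef]; ring
    rw [e, div_lt_iff₀ (by positivity), hs]
    have h1 : r x ^ 2 < R ^ 2 := by
      have := (hR x)
      nlinarith
    nlinarith [P.reg x, sq_nonneg (r1 x), sq_nonneg (z1 x), sq_nonneg (r x)]
  have habs : |pf r r1 z1 x| < R := by
    rw [← Real.sqrt_sq hRpos.le, ← Real.sqrt_sq_eq_abs]
    exact Real.sqrt_lt_sqrt (sq_nonneg _) hlt
  have hne1 : pf r r1 z1 x / R ≠ -1 := by
    intro h
    rw [div_eq_iff hRpos.ne'] at h
    rw [h] at habs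
    rw [abs_mul, abs_of_pos hRpos] at habs
    simp at habs
  have hne2 : pf r r1 z1 x / R ≠ 1 := by
    intro h
    rw [div_eq_iff hRpos.ne'] at h
    rw [h] at habs
    rw [abs_mul, abs_of_pos hRpos] at habs
    simp at habs
  have hd := ((Real.hasDerivAt_arcsin hne1 hne2).comp x ((P.pf_deriv x).div_const R)).const_mul R
  refine ⟨_, hd, ?_⟩
  -- bound
  have hW : 0 < √(R ^ 2 - pf r r1 z1 x ^ 2) := Real.sqrt_pos.2 (by linarith)
  have hroot : √(1 - (pf r r1 z1 x / R) ^ 2) = √(R ^ 2 - pf r r1 z1 x ^ 2) / R := by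
    rw [← Real.sqrt_sq hRpos.le, ← Real.sqrt_div' _ (by positivity)]
    congr 1
    rw [Real.sqrt_sq hRpos.le]
    field_simp
  rw [hroot]
  have hkey2 : R * |r1 x / s| ≤ √(R ^ 2 - pf r r1 z1 x ^ 2) := by
    apply Real.le_sqrt_of_sq_le
    rw [mul_pow, sq_abs]
    exact key
  have e : R * (1 / (√(R ^ 2 - pf r r1 z1 x ^ 2) / R) * (r1 x / s * hf r r1 r2 z1 z2 x / R))
      = R * (r1 x / s) / √(R ^ 2 - pf r r1 z1 x ^ 2) * hf r r1 r2 z1 z2 x := by
    field_simp
  rw [e, abs_mul, abs_div, abs_mul, abs_of_pos hRpos, abs_of_pos hW]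
  have : R * |r1 x / s| / √(R ^ 2 - pf r r1 z1 x ^ 2) ≤ 1 := by
    rw [div_le_one hW]; exact hkey2
  calc _ ≤ 1 * |hf r r1 r2 z1 z2 x| := by gcongr
    _ = _ := one_mul _

/-- Key estimate: the variation of `R * arcsin (p / R)` is controlled by `∫ |h|`. -/
lemma arcsin_var {R : ℝ} (hR : ∀ x, r x ≤ R) {a b : ℝ} (hab : a ≤ b) :
    R * |arcsin (pf r r1 z1 b / R) - arcsin (pf r r1 z1 a / R)|
      ≤ ∫ x in a..b, |hf r r1 r2 z1 z2 x| := by
  have hRpos : 0 < R := lt_of_lt_of_le (P.pos 0) (hR 0)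
  have hk : Continuous fun x => |hf r r1 r2 z1 z2 x| := P.cont_hf.abs
  have step : ∀ R' > R, R' * |arcsin (pf r r1 z1 b / R') - arcsin (pf r r1 z1 a / R')|
      ≤ ∫ x in a..b, |hf r r1 r2 z1 z2 x| := by
    intro R' hR'
    have hR'pos : 0 < R' := hRpos.trans hR'
    have := abs_sub_le_of_deriv_bound hk
      (fun x => P.arcsin_deriv_bound (R := R') (fun y => lt_of_le_of_lt (hR y) hR') x) hab
    rw [← mul_sub, abs_mul, abs_of_pos hR'pos] at this
    exact this
  have hcont : ContinuousAt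
      (fun R' => R' * |arcsin (pf r r1 z1 b / R') - arcsin (pf r r1 z1 a / R')|) R := by
    have h1 : ContinuousAt (fun R' : ℝ => pf r r1 z1 b / R') R :=
      continuousAt_const.div continuousAt_id hRpos.ne'
    have h2 : ContinuousAt (fun R' : ℝ => pf r r1 z1 a / R') R :=
      continuousAt_const.div continuousAt_id hRpos.ne'
    have h3 := Real.continuous_arcsin.continuousAt.comp h1
    have h4 := Real.continuous_arcsin.continuousAt.comp h2
    exact continuousAt_id.mul ((h3.sub h4).abs)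
  have hlim : Tendsto (fun R' => R' * |arcsin (pf r r1 z1 b / R') - arcsin (pf r r1 z1 a / R')|)
      (𝓝[>] R) (𝓝 (R * |arcsin (pf r r1 z1 b / R) - arcsin (pf r r1 z1 a / R)|)) :=
    hcont.tendsto.mono_left nhdsWithin_le_nhds
  refine le_of_tendsto hlim ?_
  filter_upwards [self_mem_nhdsWithin] with R' hR'
  exact step R' hR'

/-- variation of `p`, weighted version -/
lemma pf_var {a b : ℝ} (hab : a ≤ b) :
    |pf r r1 z1 b - pf r r1 z1 a| ≤ ∫ x in a..b, |r1 x / sp r1 z1 x| * |hf r r1 r2 z1 z2 x| := by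
  have h1 := P.cont_r1
  have h4 := P.cont_sp
  have hh := P.cont_hf
  have hk : Continuous fun x => |r1 x / sp r1 z1 x| * |hf r r1 r2 z1 z2 x| := by
    have : Continuous fun x => r1 x / sp r1 z1 x := h1.div h4 fun x => (P.sp_pos x).ne'
    fun_prop
  refine abs_sub_le_of_deriv_bound hk (fun x => ⟨_, P.pf_deriv x, ?_⟩) hab
  rw [abs_mul]

lemma length_ge {a b : ℝ} (hab : a ≤ b) : |z b - z a| ≤ ∫ x in a..b, sp r1 z1 x := by
  refine abs_sub_le_of_deriv_bound P.cont_sp (fun x => ⟨_, P.hz x, ?_⟩) hab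
  rw [← Real.sqrt_sq_eq_abs]
  exact Real.sqrt_le_sqrt (by nlinarith [sq_nonneg (r1 x)])

lemma qf_int (a b : ℝ) : ∫ x in a..b, (sp r1 z1 x - z1 x / sp r1 z1 x * hf r r1 r2 z1 z2 x)
    = qf r r1 z1 b - qf r r1 z1 a := by
  have h1 := P.cont_z1
  have h4 := P.cont_sp
  have hh := P.cont_hf
  have h5 : Continuous fun x => z1 x / sp r1 z1 x := h1.div h4 fun x => (P.sp_pos x).ne'
  exact integral_eq_sub_of_hasDerivAt (fun x _ => P.qf_deriv x)
    ((h4.sub (h5.mul hh)).intervalIntegrable _ _)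

/-- The first variation in radial direction: length is controlled by `∫ |sin θ| |h|` on a period. -/
lemma length_le {T : ℝ} (hT : 0 < T) (hrT : Function.Periodic (qf r r1 z1) T) (a : ℝ) :
    ∫ x in a..(a + T), sp r1 z1 x ≤
      ∫ x in a..(a + T), |z1 x / sp r1 z1 x| * |hf r r1 r2 z1 z2 x| := by
  have h1 := P.cont_z1
  have h4 := P.cont_sp
  have hh := P.cont_hf
  have h5 : Continuous fun x => z1 x / sp r1 z1 x := h1.div h4 fun x => (P.sp_pos x).ne'
  have h6 : Continuous fun x => z1 x / sp r1 z1 x * hf r r1 r2 z1 z2 x := h5.mul hh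
  have h := P.qf_int a (a + T)
  rw [hrT a, sub_self, integral_sub (h4.intervalIntegrable _ _)
    (h6.intervalIntegrable _ _)] at h
  have h2 : ∫ x in a..(a + T), sp r1 z1 x
      = ∫ x in a..(a + T), z1 x / sp r1 z1 x * hf r r1 r2 z1 z2 x := by linarith
  rw [h2]
  apply integral_mono_on (by linarith) ((h5.mul hh).intervalIntegrable _ _)
    ((h5.abs.mul hh.abs).intervalIntegrable _ _)
  intro x _
  change z1 x / sp r1 z1 x * hf r r1 r2 z1 z2 x ≤
    |z1 x / sp r1 z1 x| * |hf r r1 r2 z1 z2 x|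
  rw [← abs_mul]
  exact le_abs_self _

/-- Combination of the two first variation estimates. -/
lemma combine {a b X Y : ℝ} (hab : a ≤ b) (hX0 : 0 ≤ X) (hY0 : 0 ≤ Y)
    (hX : X ≤ ∫ x in a..b, |z1 x / sp r1 z1 x| * |hf r r1 r2 z1 z2 x|)
    (hY : Y ≤ ∫ x in a..b, |r1 x / sp r1 z1 x| * |hf r r1 r2 z1 z2 x|) :
    √(X ^ 2 + Y ^ 2) ≤ ∫ x in a..b, |hf r r1 r2 z1 z2 x| := by
  have h1 := P.cont_r1
  have h1' := P.cont_z1
  have h4 := P.cont_sp
  have hh := P.cont_hf
  have h5 : Continuous fun x => z1 x / sp r1 z1 x := h1'.div h4 fun x => (P.sp_pos x).ne'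
  have h5' : Continuous fun x => r1 x / sp r1 z1 x := h1.div h4 fun x => (P.sp_pos x).ne'
  have hF0 : 0 ≤ ∫ x in a..b, |hf r r1 r2 z1 z2 x| :=
    integral_nonneg hab fun x _ => abs_nonneg _
  rcases eq_or_lt_of_le (Real.sqrt_nonneg (X ^ 2 + Y ^ 2)) with h0 | h0
  · rw [← h0]; exact hF0
  set N := √(X ^ 2 + Y ^ 2) with hN
  have hN2 : N ^ 2 = X ^ 2 + Y ^ 2 := Real.sq_sqrt (by positivity)
  have hc1 : Continuous fun x => |z1 x / sp r1 z1 x| * |hf r r1 r2 z1 z2 x| := h5.abs.mul hh.abs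
  have hc2 : Continuous fun x => |r1 x / sp r1 z1 x| * |hf r r1 r2 z1 z2 x| := h5'.abs.mul hh.abs
  have key : ∫ x in a..b, (X / N * (|z1 x / sp r1 z1 x| * |hf r r1 r2 z1 z2 x|)
      + Y / N * (|r1 x / sp r1 z1 x| * |hf r r1 r2 z1 z2 x|))
      ≤ ∫ x in a..b, |hf r r1 r2 z1 z2 x| := by
    apply integral_mono_on hab
      (((hc1.const_mul _).add (hc2.const_mul _)).intervalIntegrable _ _)
      (hh.abs.intervalIntegrable _ _)
    intro x _
    change X / N * (|z1 x / sp r1 z1 x| * |hf r r1 r2 z1 z2 x|)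
      + Y / N * (|r1 x / sp r1 z1 x| * |hf r r1 r2 z1 z2 x|) ≤ |hf r r1 r2 z1 z2 x|
    have e : X / N * |z1 x / sp r1 z1 x| + Y / N * |r1 x / sp r1 z1 x| ≤ 1 := by
      have hu : (X / N) ^ 2 + (Y / N) ^ 2 = 1 := by
        rw [div_pow, div_pow, ← add_div, ← hN2]
        exact div_self (by positivity)
      have hv : |z1 x / sp r1 z1 x| ^ 2 + |r1 x / sp r1 z1 x| ^ 2 = 1 := by
        rw [sq_abs, sq_abs, div_pow, div_pow, ← add_div, P.sp_sq, add_comm (z1 x ^ 2)]
        exact div_self (P.reg x).ne'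
      nlinarith [sq_nonneg (X / N - |z1 x / sp r1 z1 x|), sq_nonneg (Y / N - |r1 x / sp r1 z1 x|)]
    calc _ = (X / N * |z1 x / sp r1 z1 x| + Y / N * |r1 x / sp r1 z1 x|)
          * |hf r r1 r2 z1 z2 x| := by ring
      _ ≤ 1 * |hf r r1 r2 z1 z2 x| := by gcongr
      _ = _ := one_mul _
  rw [integral_add ((hc1.const_mul _).intervalIntegrable _ _)
    ((hc2.const_mul _).intervalIntegrable _ _), intervalIntegral.integral_const_mul,
    intervalIntegral.integral_const_mul] at key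
  have e1 : X / N * X ≤ X / N * ∫ x in a..b, |z1 x / sp r1 z1 x| * |hf r r1 r2 z1 z2 x| := by
    gcongr
  have e2 : Y / N * Y ≤ Y / N * ∫ x in a..b, |r1 x / sp r1 z1 x| * |hf r r1 r2 z1 z2 x| := by
    gcongr
  have e3 : N = X / N * X + Y / N * Y := by
    field_simp
    rw [hN2]
  linarith

end Prof

end Pool.Agent.Lib.MP_bea121_gt
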