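import Pool.Agent.Lib.MP_bea121_gt.Profile

/-!
The sharp lower bound for closed profile curves.
-/

open MeasureTheory Real Set Filter Topology intervalIntegral

namespace Pool.Agent.Lib.MP_bea121_gt

lemma sin_half_bound {c s : ℝ} (hc0 : 0 ≤ c) (hs0 : 0 < s)
    (hcs : s ^ 2 = (1 - c) * (1 + c)) (hσ : s ^ 2 < 4 / 7) :
    s ^ 2 ≤ 2 * sin (s * (1 + c) / 2) ^ 2 := by
  set t := s * (1 + c) / 2 with ht
  have htpos : 0 < t := by positivity
  have hsin : t - t ^ 3 / 6 < sin t := sin_gt_sub_cube htpos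
  have hc2 : 3 / 7 < c ^ 2 := by nlinarith
  have hm : (13 / 20 : ℝ) ≤ c := by
    by_contra h
    push Not at h
    nlinarith
  have hm3 : (1 - c) * (1 + c) ^ 3 ≤ 27 / 16 := by
    have h1 : 27 / 16 - (1 - c) * (1 + c) ^ 3
        = (c - 1 / 2) ^ 2 * (c ^ 2 + 3 * c + 11 / 4) := by ring
    have h2 : 0 ≤ (c - 1 / 2) ^ 2 * (c ^ 2 + 3 * c + 11 / 4) := by positivity
    linarith
  have ht2 : t ^ 2 / 6 ≤ 27 / 384 := by
    have : t ^ 2 = s ^ 2 * (1 + c) ^ 2 / 4 := by rw [ht]; ring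
    rw [this, hcs]
    have : (1 - c) * (1 + c) * (1 + c) ^ 2 / 4 / 6 = (1 - c) * (1 + c) ^ 3 / 24 := by ring
    rw [this]
    linarith
  have h5 : t * (357 / 384) ≤ sin t := by
    have e : t - t ^ 3 / 6 = t * (1 - t ^ 2 / 6) := by ring
    rw [e] at hsin
    have : t * (357 / 384) ≤ t * (1 - t ^ 2 / 6) := by
      apply mul_le_mul_of_nonneg_left _ htpos.le
      linarith
    linarith
  have h6 : s ^ 2 ≤ 2 * (t * (357 / 384)) ^ 2 := by
    rw [ht]
    have : 2 * (s * (1 + c) / 2 * (357 / 384)) ^ 2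
        = s ^ 2 * ((1 + c) ^ 2 * (357 ^ 2 / (2 * 384 ^ 2))) := by ring
    rw [this]
    have h7 : 1 ≤ (1 + c) ^ 2 * (357 ^ 2 / (2 * 384 ^ 2)) := by
      have : (33 / 20 : ℝ) ^ 2 ≤ (1 + c) ^ 2 := by
        apply pow_le_pow_left₀ (by norm_num); linarith
      nlinarith
    calc s ^ 2 = s ^ 2 * 1 := by ring
      _ ≤ _ := mul_le_mul_of_nonneg_left h7 (sq_nonneg s)
  have h8 : (t * (357 / 384)) ^ 2 ≤ sin t ^ 2 :=
    pow_le_pow_left₀ (by positivity) h5 2
  linarith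

/-- elementary inequality used at the end of the proof (small tilt) -/
lemma arcsin_ineq {α : ℝ} (h0 : 0 ≤ α) (h1 : α ≤ π / 2) (hσ : sin α ^ 2 < 4 / 7) :
    π / 2 ≤ α * cos α + sin α + arcsin (cos α ^ 2) := by
  have hc0 : 0 ≤ cos α := cos_nonneg_of_mem_Icc ⟨by linarith, h1⟩
  have hs0 : 0 ≤ sin α := sin_nonneg_of_mem_Icc ⟨h0, by linarith [Real.pi_pos]⟩
  have hsa : sin α ≤ α := sin_le h0
  have hcs : sin α ^ 2 + cos α ^ 2 = 1 := sin_sq_add_cos_sq α
  have hc1 : cos α ≤ 1 := cos_le_one α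
  have hs1 : sin α ≤ 1 := sin_le_one α
  set c := cos α with hc
  set s := sin α with hs
  set y := α * c + s with hy
  have hy0 : s * (1 + c) ≤ y := by
    rw [hy]; nlinarith
  have hyn : 0 ≤ y := le_trans (by positivity) hy0
  by_cases hbig : π / 2 ≤ y
  · have : 0 ≤ arcsin (c ^ 2) := Real.arcsin_nonneg.2 (sq_nonneg _)
    linarith
  push Not at hbig
  -- show cos y ≤ c^2
  have hcosy : cos y ≤ c ^ 2 := by
    rcases eq_or_lt_of_le hs0 with hs00 | hspos
    · have : c ^ 2 = 1 := by rw [← hcs, ← hs00]; ring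
      rw [this]; exact cos_le_one y
    have h2 : cos y ≤ cos (s * (1 + c)) :=
      cos_le_cos_of_nonneg_of_le_pi (by positivity) (by linarith [Real.pi_pos]) hy0
    have h3 : cos (s * (1 + c)) = 1 - 2 * sin (s * (1 + c) / 2) ^ 2 := by
      have h3' := cos_sq' (s * (1 + c) / 2)
      have h4 := cos_two_mul (s * (1 + c) / 2)
      rw [show 2 * (s * (1 + c) / 2) = s * (1 + c) by ring] at h4
      linarith
    have h5 := sin_half_bound hc0 hspos (by linarith) hσ
    rw [h3] at h2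
    linarith
  have hc21 : c ^ 2 ≤ 1 := by linarith [sq_nonneg s]
  have h9 : π / 2 - y ≤ arcsin (c ^ 2) := by
    rw [Real.le_arcsin_iff_sin_le ⟨by linarith, by linarith⟩ ⟨by linarith [sq_nonneg c], hc21⟩,
      Real.sin_pi_div_two_sub]
    exact hcosy
  linarith

/-- sum of two arcsines -/
lemma arcsin_add_ge {x y : ℝ} (hx : 0 ≤ x) (hx1 : x ≤ 1) (hy : 0 ≤ y) (hy1 : y ≤ 1) :
    2 * arcsin ((x + y) / 2) ≤ arcsin x + arcsin y := by
  have ha : 0 ≤ arcsin x := Real.arcsin_nonneg.2 hx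
  have hb : 0 ≤ arcsin y := Real.arcsin_nonneg.2 hy
  have ha' := Real.arcsin_le_pi_div_two x
  have hb' := Real.arcsin_le_pi_div_two y
  have hconc : (1 / 2 : ℝ) • sin (arcsin x) + (1 / 2 : ℝ) • sin (arcsin y)
      ≤ sin ((1 / 2 : ℝ) • arcsin x + (1 / 2 : ℝ) • arcsin y) :=
    strictConcaveOn_sin_Icc.concaveOn.2
      ⟨ha, by linarith [Real.pi_pos]⟩ ⟨hb, by linarith [Real.pi_pos]⟩
      (by norm_num) (by norm_num) (by norm_num)
  simp only [smul_eq_mul] at hconc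
  rw [Real.sin_arcsin (by linarith) hx1, Real.sin_arcsin (by linarith) hy1] at hconc
  have : arcsin ((x + y) / 2) ≤ (arcsin x + arcsin y) / 2 := by
    rw [Real.arcsin_le_iff_le_sin ⟨by linarith, by linarith⟩ ⟨by linarith, by linarith⟩]
    calc (x + y) / 2 = 1 / 2 * x + 1 / 2 * y := by ring
      _ ≤ _ := hconc
      _ = _ := by congr 1; ring
  linarith

/-- The final numerical step. -/
lemma final_step {S Δ ra rb F : ℝ} (hra : 0 < ra) (hrb : 0 < rb) (hS : ra + rb = S)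
    (hΔ : 0 ≤ Δ)
    (hraR : ra ≤ √(S ^ 2 + Δ ^ 2) / 2) (hrbR : rb ≤ √(S ^ 2 + Δ ^ 2) / 2)
    (hF1 : √((2 * Δ) ^ 2 + (S * cos (arctan (Δ / S))) ^ 2) ≤ F)
    (hF2 : arctan (Δ / S) * S + Δ + √(S ^ 2 + Δ ^ 2) / 2 *
      (arcsin (ra * cos (arctan (Δ / S)) / (√(S ^ 2 + Δ ^ 2) / 2)) +
       arcsin (rb * cos (arctan (Δ / S)) / (√(S ^ 2 + Δ ^ 2) / 2))) ≤ F) :
    π / 2 * √(S ^ 2 + Δ ^ 2) ≤ F := by
  have hSpos : 0 < S := by linarith
  set D := √(S ^ 2 + Δ ^ 2) with hD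
  have hDpos : 0 < D := Real.sqrt_pos.2 (by positivity)
  have hD2 : D ^ 2 = S ^ 2 + Δ ^ 2 := Real.sq_sqrt (by positivity)
  set α := arctan (Δ / S) with hα
  have hα0 : 0 ≤ α := by
    rw [hα, ← Real.arctan_zero]
    exact Real.arctan_mono (by positivity)
  have hα1 : α ≤ π / 2 := (Real.arctan_lt_pi_div_two _).le
  have hroot : √(1 + (Δ / S) ^ 2) = D / S := by
    rw [hD, ← Real.sqrt_sq hSpos.le, ← Real.sqrt_div' _ (by positivity)]
    congr 1
    rw [Real.sqrt_sq hSpos.le]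
    field_simp
  have hcos : cos α = S / D := by
    rw [hα, Real.cos_arctan, hroot]
    field_simp
  have hsin : sin α = Δ / D := by
    rw [hα, Real.sin_arctan, hroot]
    field_simp
  have hSc : S = D * cos α := by rw [hcos]; field_simp
  have hΔs : Δ = D * sin α := by rw [hsin]; field_simp
  have hcs : sin α ^ 2 + cos α ^ 2 = 1 := sin_sq_add_cos_sq α
  have hcpos : 0 < cos α := by rw [hcos]; positivity
  have hc1 : cos α ≤ 1 := cos_le_one α
  by_cases hσ : sin α ^ 2 < 4 / 7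
  · have h1 := arcsin_ineq hα0 hα1 hσ
    have hx1 : ra * cos α / (D / 2) ≤ 1 := by
      rw [div_le_one (by positivity)]
      nlinarith
    have hy1 : rb * cos α / (D / 2) ≤ 1 := by
      rw [div_le_one (by positivity)]
      nlinarith
    have h2 := arcsin_add_ge (x := ra * cos α / (D / 2)) (y := rb * cos α / (D / 2))
      (by positivity) hx1 (by positivity) hy1
    have h3 : (ra * cos α / (D / 2) + rb * cos α / (D / 2)) / 2 = cos α ^ 2 := by
      have : (ra * cos α / (D / 2) + rb * cos α / (D / 2)) / 2 = (ra + rb) * cos α / D := by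
        field_simp
      rw [this, hS, hcos]
      field_simp
    rw [h3] at h2
    have h4 : D / 2 * (2 * arcsin (cos α ^ 2)) ≤ D / 2 * (arcsin (ra * cos α / (D / 2))
        + arcsin (rb * cos α / (D / 2))) := by gcongr
    have h5 : π / 2 * D ≤ (α * cos α + sin α + arcsin (cos α ^ 2)) * D := by gcongr
    have h6 : (α * cos α + sin α + arcsin (cos α ^ 2)) * D
        = α * (D * cos α) + D * sin α + D / 2 * (2 * arcsin (cos α ^ 2)) := by ring
    rw [h6, ← hSc, ← hΔs] at h5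
    linarith
  · push Not at hσ
    have h1 : √((2 * Δ) ^ 2 + (S * cos α) ^ 2) = D * (1 + sin α ^ 2) := by
      have : (2 * Δ) ^ 2 + (S * cos α) ^ 2 = (D * (1 + sin α ^ 2)) ^ 2 := by
        rw [hSc]
        have e1 : (2 * Δ) ^ 2 = 4 * (D * sin α) ^ 2 := by rw [← hΔs]; ring
        rw [e1]
        have e2 : cos α ^ 2 = 1 - sin α ^ 2 := by linarith
        have e3 : (D * cos α * cos α) ^ 2 = D ^ 2 * (cos α ^ 2) ^ 2 := by ring
        rw [e3, e2]
        ring
      rw [this, Real.sqrt_sq (by positivity)]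
    rw [h1] at hF1
    have h2 : π / 2 ≤ 1 + sin α ^ 2 := by
      have := Real.pi_lt_d4
      linarith
    nlinarith

end Pool.Agent.Lib.MP_bea121_gt
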