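import Pool.Agent.Lib.MP_bea121_gt.ProfileBound

/-!
Case analysis and the main lower bound for closed profile curves.
-/

open MeasureTheory Real Set Filter Topology intervalIntegral

namespace Pool.Agent.Lib.MP_bea121_gt

namespace Prof

variable {r r1 r2 z z1 z2 : ℝ → ℝ} (P : Prof r r1 r2 z z1 z2)
include P

/-- reflection in the plane `z = 0` -/
lemma neg : Prof r r1 r2 (fun x => - z x) (fun x => - z1 x) (fun x => - z2 x) where
  hr := P.hr
  hr1 := P.hr1
  hr2 := P.hr2
  hz x := (P.hz x).neg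
  hz1 x := (P.hz1 x).neg
  hz2 := P.hz2.neg
  pos := P.pos
  reg x := by have := P.reg x; simpa using this

omit P in
lemma sp_neg (x : ℝ) : sp r1 (fun x => - z1 x) x = sp r1 z1 x := by
  simp [sp]

omit P in
lemma hf_neg (x : ℝ) : hf r r1 r2 (fun x => - z1 x) (fun x => - z2 x) x = - hf r r1 r2 z1 z2 x := by
  simp only [hf]
  have : r1 x * - z2 x - r2 x * - z1 x = -(r1 x * z2 x - r2 x * z1 x) := by ring
  rw [this, neg_sq, mul_neg, neg_div]
  ring

/-- On an arc where `z' > 0` the mean curvature integral is bounded below by the total turning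
weighted with the radius. -/
lemma arc_bound {a b : ℝ} (hab : a ≤ b) (hz : ∀ x ∈ Icc a b, 0 < z1 x) :
    (r b * (- arctan (r1 b / z1 b)) + z b) - (r a * (- arctan (r1 a / z1 a)) + z a)
      ≤ ∫ x in a..b, |hf r r1 r2 z1 z2 x| := by
  have hk : Continuous fun x => |hf r r1 r2 z1 z2 x| := P.cont_hf.abs
  have hΦ : ∀ x, HasDerivAt (fun x => ∫ t in a..x, |hf r r1 r2 z1 z2 t|)
      (|hf r r1 r2 z1 z2 x|) x := fun x => (hk.integral_hasStrictDerivAt a x).hasDerivAt
  have hd : ∀ x ∈ Icc a b, HasDerivAt (fun x => r x * (- arctan (r1 x / z1 x)) + z x)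
      (r1 x * (- arctan (r1 x / z1 x)) + hf r r1 r2 z1 z2 x) x := by
    intro x hx
    have hzx := hz x hx
    have h1 := ((P.hr1 x).div (P.hz1 x) hzx.ne').arctan.neg
    have h2 := ((P.hr x).mul h1).add (P.hz x)
    refine h2.congr_deriv ?_
    have hreg := P.reg x
    simp only [hf, Pi.div_apply, Pi.neg_apply]
    field_simp
    ring
  have hmono : MonotoneOn (fun x => (∫ t in a..x, |hf r r1 r2 z1 z2 t|)
      - (r x * (- arctan (r1 x / z1 x)) + z x)) (Icc a b) := by
    apply monotoneOn_of_deriv_nonneg (convex_Icc a b)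
    · intro x hx
      exact ((hΦ x).sub (hd x hx)).continuousAt.continuousWithinAt
    · intro x hx
      rw [interior_Icc] at hx
      exact ((hΦ x).sub (hd x (Ioo_subset_Icc_self hx))).differentiableAt.differentiableWithinAt
    · intro x hx
      rw [interior_Icc] at hx
      have hx' := Ioo_subset_Icc_self hx
      rw [((hΦ x).fun_sub (hd x hx')).deriv]
      have h1 : 0 ≤ r1 x * arctan (r1 x / z1 x) := by
        have hzx := hz x hx'
        rcases le_total 0 (r1 x) with h | h
        · have : 0 ≤ arctan (r1 x / z1 x) := by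
            rw [← Real.arctan_zero]; exact Real.arctan_mono (by positivity)
          positivity
        · have : arctan (r1 x / z1 x) ≤ 0 := by
            rw [← Real.arctan_zero]
            exact Real.arctan_mono (div_nonpos_of_nonpos_of_nonneg h hzx.le)
          exact mul_nonneg_of_nonpos_of_nonpos h this
      have h2 := le_abs_self (hf r r1 r2 z1 z2 x)
      linarith
  have := hmono (left_mem_Icc.2 hab) (right_mem_Icc.2 hab) hab
  simp only [integral_same] at this
  linarith

omit P in
/-- value of `p` at a critical point of the distance -/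
lemma pf_crit {S Δ x : ℝ} (hS : 0 < S) (hz : 0 < z1 x)
    (h : S * r1 x = Δ * z1 x ∨ S * r1 x = - Δ * z1 x) :
    pf r r1 z1 x = r x * cos (arctan (Δ / S)) := by
  have hsq : r1 x ^ 2 = (Δ / S) ^ 2 * z1 x ^ 2 := by
    have : (S * r1 x) ^ 2 = (Δ * z1 x) ^ 2 := by
      rcases h with h | h
      · rw [h]
      · rw [h]; ring
    rw [div_pow, div_mul_eq_mul_div, eq_div_iff (by positivity)]
    linarith
  have hsp : sp r1 z1 x = z1 x * √(1 + (Δ / S) ^ 2) := by
    rw [sp, hsq, ← Real.sqrt_sq hz.le, ← Real.sqrt_mul (by positivity)]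
    congr 1
    rw [Real.sqrt_sq hz.le]
    ring
  rw [pf, hsp, Real.cos_arctan]
  have : 0 < √(1 + (Δ / S) ^ 2) := Real.sqrt_pos.2 (by positivity)
  field_simp

/-- Main case: `z' > 0` on the arc between the two extremal points. -/
lemma case2pos {T a b y : ℝ} (hper : ∀ x, pf r r1 z1 (x + T) = pf r r1 z1 x)
    (hqper : Function.Periodic (qf r r1 z1) T) (hT : 0 < T)
    (hab : a ≤ b) (hby : b ≤ y) (hyT : y ≤ a + T) (hy : z1 y = 0)
    (hz : ∀ x ∈ Icc a b, 0 < z1 x) (hzT : z (a + T) = z a)
    (fa : (r a + r b) * r1 a = (z b - z a) * z1 a)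
    (fb : (r a + r b) * r1 b = - (z b - z a) * z1 b)
    (hR : ∀ x, r x ≤ √((r a + r b) ^ 2 + (z b - z a) ^ 2) / 2) :
    π / 2 * √((r a + r b) ^ 2 + (z b - z a) ^ 2) ≤ ∫ x in a..(a + T), |hf r r1 r2 z1 z2 x| := by
  have hra := P.pos a
  have hrb := P.pos b
  have hS : 0 < r a + r b := by linarith
  have hk : Continuous fun x => |hf r r1 r2 z1 z2 x| := P.cont_hf.abs
  -- `z b - z a ≥ 0`
  have hΔ : 0 ≤ z b - z a := by
    have : MonotoneOn z (Icc a b) := by
      apply monotoneOn_of_deriv_nonneg (convex_Icc a b) P.cont_z.continuousOn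
      · intro x _; exact (P.hz x).differentiableAt.differentiableWithinAt
      · intro x hx
        rw [interior_Icc] at hx
        rw [(P.hz x).deriv]
        exact (hz x (Ioo_subset_Icc_self hx)).le
    have := this (left_mem_Icc.2 hab) (right_mem_Icc.2 hab) hab
    linarith
  have hza := hz a (left_mem_Icc.2 hab)
  have hzb := hz b (right_mem_Icc.2 hab)
  have hpa := pf_crit (r := r) hS hza (Or.inl fa)
  have hpb := pf_crit (r := r) hS hzb (Or.inr fb)
  have hpy : pf r r1 z1 y = 0 := by simp [pf, hy]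
  have hcos : 0 < cos (arctan ((z b - z a) / (r a + r b))) := Real.cos_arctan_pos _
  apply final_step hra hrb rfl hΔ (hR a) (hR b)
  · -- first variation bound
    apply P.combine (by linarith) (by positivity) (by positivity)
    · refine le_trans ?_ (P.length_le hT hqper a)
      have e1 := P.length_ge hab
      have e2 := P.length_ge (show b ≤ a + T by linarith)
      have e3 : (∫ x in a..b, sp r1 z1 x) + ∫ x in b..(a + T), sp r1 z1 x
          = ∫ x in a..(a + T), sp r1 z1 x :=
        integral_add_adjacent_intervals (P.cont_sp.intervalIntegrable _ _)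
          (P.cont_sp.intervalIntegrable _ _)
      rw [hzT] at e2
      have e4 : |z a - z b| = z b - z a := by rw [abs_sub_comm, abs_of_nonneg hΔ]
      have e5 : |z b - z a| = z b - z a := abs_of_nonneg hΔ
      linarith
    · have h1 := P.cont_r1
      have h4 := P.cont_sp
      have hh := P.cont_hf
      have h5' : Continuous fun x => r1 x / sp r1 z1 x := h1.div h4 fun x => (P.sp_pos x).ne'
      have hc2 : Continuous fun x => |r1 x / sp r1 z1 x| * |hf r r1 r2 z1 z2 x| :=
        h5'.abs.mul hh.abs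
      have e1 := P.pf_var hby
      have e2 := P.pf_var hyT
      rw [hpy, hpb, zero_sub, abs_neg, abs_of_pos (by positivity)] at e1
      rw [hpy, hper, hpa, sub_zero, abs_of_pos (by positivity)] at e2
      have e3 : (∫ x in b..y, |r1 x / sp r1 z1 x| * |hf r r1 r2 z1 z2 x|)
          + (∫ x in y..(a + T), |r1 x / sp r1 z1 x| * |hf r r1 r2 z1 z2 x|)
          = ∫ x in b..(a + T), |r1 x / sp r1 z1 x| * |hf r r1 r2 z1 z2 x| :=
        integral_add_adjacent_intervals (hc2.intervalIntegrable _ _)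
          (hc2.intervalIntegrable _ _)
      have e4 : (∫ x in a..b, |r1 x / sp r1 z1 x| * |hf r r1 r2 z1 z2 x|)
          + (∫ x in b..(a + T), |r1 x / sp r1 z1 x| * |hf r r1 r2 z1 z2 x|)
          = ∫ x in a..(a + T), |r1 x / sp r1 z1 x| * |hf r r1 r2 z1 z2 x| :=
        integral_add_adjacent_intervals (hc2.intervalIntegrable _ _)
          (hc2.intervalIntegrable _ _)
      have e5 : 0 ≤ ∫ x in a..b, |r1 x / sp r1 z1 x| * |hf r r1 r2 z1 z2 x| :=
        integral_nonneg hab fun x _ => by positivity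
      nlinarith
  · -- turning bound
    have hR0 : 0 < √((r a + r b) ^ 2 + (z b - z a) ^ 2) / 2 := by
      have : 0 < √((r a + r b) ^ 2 + (z b - z a) ^ 2) := Real.sqrt_pos.2 (by positivity)
      positivity
    have e1 := P.arcsin_var hR hby
    have e2 := P.arcsin_var hR hyT
    rw [hpy, hpb, zero_div, Real.arcsin_zero, zero_sub, abs_neg,
      abs_of_nonneg (Real.arcsin_nonneg.2 (by positivity))] at e1
    rw [hpy, hper, hpa, zero_div, Real.arcsin_zero, sub_zero,
      abs_of_nonneg (Real.arcsin_nonneg.2 (by positivity))] at e2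
    have e3 := P.arc_bound hab hz
    have ha1 : r1 a / z1 a = (z b - z a) / (r a + r b) := by
      rw [div_eq_div_iff hza.ne' hS.ne']; linarith
    have hb1 : r1 b / z1 b = - ((z b - z a) / (r a + r b)) := by
      rw [← neg_div, div_eq_div_iff hzb.ne' hS.ne']; linarith
    rw [ha1, hb1, Real.arctan_neg] at e3
    have e4 : (∫ x in a..b, |hf r r1 r2 z1 z2 x|) + (∫ x in b..y, |hf r r1 r2 z1 z2 x|)
        = ∫ x in a..y, |hf r r1 r2 z1 z2 x| :=
      integral_add_adjacent_intervals (hk.intervalIntegrable _ _) (hk.intervalIntegrable _ _)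
    have e5 : (∫ x in a..y, |hf r r1 r2 z1 z2 x|) + (∫ x in y..(a + T), |hf r r1 r2 z1 z2 x|)
        = ∫ x in a..(a + T), |hf r r1 r2 z1 z2 x| :=
      integral_add_adjacent_intervals (hk.intervalIntegrable _ _) (hk.intervalIntegrable _ _)
    nlinarith

/-- Main case, with arbitrary sign of `z'`. -/
lemma case2 {T a b y : ℝ} (hper : ∀ x, pf r r1 z1 (x + T) = pf r r1 z1 x)
    (hqper : Function.Periodic (qf r r1 z1) T) (hT : 0 < T)
    (hab : a ≤ b) (hby : b ≤ y) (hyT : y ≤ a + T) (hy : z1 y = 0)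
    (hz : ∀ x ∈ Icc a b, z1 x ≠ 0) (hzT : z (a + T) = z a)
    (fa : (r a + r b) * r1 a = (z b - z a) * z1 a)
    (fb : (r a + r b) * r1 b = - (z b - z a) * z1 b)
    (hR : ∀ x, r x ≤ √((r a + r b) ^ 2 + (z b - z a) ^ 2) / 2) :
    π / 2 * √((r a + r b) ^ 2 + (z b - z a) ^ 2) ≤ ∫ x in a..(a + T), |hf r r1 r2 z1 z2 x| := by
  have hza := hz a (left_mem_Icc.2 hab)
  rcases lt_or_gt_of_ne hza with hneg | hpos
  · -- negative sign: reflect
    have hall : ∀ x ∈ Icc a b, 0 < - z1 x := by
      intro x hx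
      by_contra hcon
      push Not at hcon
      have hx0 : 0 ≤ z1 x := by linarith
      have := intermediate_value_Icc hx.1 (P.cont_z1.continuousOn (s := Icc a x))
      obtain ⟨w, hw, hw0⟩ := this ⟨hneg.le, hx0⟩
      exact hz w ⟨hw.1, hw.2.trans hx.2⟩ hw0
    have key := P.neg.case2pos (T := T) (a := a) (b := b) (y := y)
      (by
        intro x
        have h1 : ∀ x, pf r r1 (fun x => - z1 x) x = - pf r r1 z1 x := by
          intro x
          simp only [pf, sp_neg]
          ring
        rw [h1, h1, hper])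
      (by
        intro x
        have h1 : ∀ x, qf r r1 (fun x => - z1 x) x = qf r r1 z1 x := by
          intro x
          simp only [qf, sp_neg]
        rw [h1, h1, hqper x]) hT hab hby hyT (by simp [hy]) hall (by simp [hzT])
      (by linarith) (by linarith)
      (by
        intro x
        have e : (r a + r b) ^ 2 + (-z b - -z a) ^ 2 = (r a + r b) ^ 2 + (z b - z a) ^ 2 := by
          ring
        simp only [e]
        exact hR x)
    have e : (r a + r b) ^ 2 + (-z b - -z a) ^ 2 = (r a + r b) ^ 2 + (z b - z a) ^ 2 := by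
      ring
    simp only [e] at key
    refine key.trans (le_of_eq ?_)
    congr 1
    ext x
    rw [hf_neg, abs_neg]
  · have hall : ∀ x ∈ Icc a b, 0 < z1 x := by
      intro x hx
      by_contra hcon
      push Not at hcon
      have := intermediate_value_Icc' hx.1 (P.cont_z1.continuousOn (s := Icc a x))
      obtain ⟨w, hw, hw0⟩ := this ⟨hcon, hpos.le⟩
      exact hz w ⟨hw.1, hw.2.trans hx.2⟩ hw0
    exact P.case2pos hper hqper hT hab hby hyT hy hall hzT fa fb hR

omit P in
lemma pf_crit_abs {S Δ x : ℝ} (hS : 0 < S) (hr : 0 < r x) (hz : z1 x ≠ 0)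
    (h : S * r1 x = Δ * z1 x ∨ S * r1 x = - Δ * z1 x) :
    |pf r r1 z1 x| = r x * (S / √(S ^ 2 + Δ ^ 2)) := by
  have hsq : r1 x ^ 2 = (Δ / S) ^ 2 * z1 x ^ 2 := by
    have : (S * r1 x) ^ 2 = (Δ * z1 x) ^ 2 := by
      rcases h with h | h
      · rw [h]
      · rw [h]; ring
    rw [div_pow, div_mul_eq_mul_div, eq_div_iff (by positivity)]
    linarith
  have hDpos : 0 < √(S ^ 2 + Δ ^ 2) := Real.sqrt_pos.2 (by positivity)
  have hsp : sp r1 z1 x = |z1 x| * (√(S ^ 2 + Δ ^ 2) / S) := by
    rw [sp, hsq, ← Real.sqrt_sq hS.le, ← Real.sqrt_div' _ (by positivity),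
      ← Real.sqrt_sq (abs_nonneg (z1 x)), ← Real.sqrt_mul (by positivity)]
    congr 1
    rw [Real.sqrt_sq hS.le, sq_abs]
    field_simp
    ring
  have habs : 0 < |z1 x| := abs_pos.2 hz
  rw [pf, hsp, abs_div, abs_mul, abs_of_pos hr, abs_of_pos (by positivity :
    0 < |z1 x| * (√(S ^ 2 + Δ ^ 2) / S))]
  field_simp

/-- Both arcs between the extremal points contain a horizontal point. -/
lemma case1 {T a b x y : ℝ} (hper : ∀ x, pf r r1 z1 (x + T) = pf r r1 z1 x)
    (hqper : Function.Periodic (qf r r1 z1) T) (hT : 0 < T)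
    (hax : a ≤ x) (hxb : x ≤ b) (hby : b ≤ y) (hyT : y ≤ a + T) (hx : z1 x = 0) (hy : z1 y = 0)
    (hza : z1 a ≠ 0) (hzb : z1 b ≠ 0) (hzT : z (a + T) = z a)
    (fa : (r a + r b) * r1 a = (z b - z a) * z1 a)
    (fb : (r a + r b) * r1 b = - (z b - z a) * z1 b) :
    π / 2 * √((r a + r b) ^ 2 + (z b - z a) ^ 2) ≤ ∫ x in a..(a + T), |hf r r1 r2 z1 z2 x| := by
  have hra := P.pos a
  have hrb := P.pos b
  have hab : a ≤ b := hax.trans hxb
  have hS : 0 < r a + r b := by linarith
  set S := r a + r b with hSdef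
  set Δ := z b - z a with hΔdef
  set D := √(S ^ 2 + Δ ^ 2) with hD
  have hDpos : 0 < D := Real.sqrt_pos.2 (by positivity)
  have hD2 : D ^ 2 = S ^ 2 + Δ ^ 2 := Real.sq_sqrt (by positivity)
  have hpa := pf_crit_abs (r := r) (r1 := r1) hS hra hza (Or.inl fa)
  have hpb := pf_crit_abs (r := r) (r1 := r1) hS hrb hzb (Or.inr fb)
  rw [← hD] at hpa hpb
  have hpx : pf r r1 z1 x = 0 := by simp [pf, hx]
  have hpy : pf r r1 z1 y = 0 := by simp [pf, hy]
  have h1 := P.cont_r1
  have h4 := P.cont_sp
  have hh := P.cont_hf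
  have h5' : Continuous fun x => r1 x / sp r1 z1 x := h1.div h4 fun x => (P.sp_pos x).ne'
  have hc2 : Continuous fun x => |r1 x / sp r1 z1 x| * |hf r r1 r2 z1 z2 x| :=
    h5'.abs.mul hh.abs
  have key : √((2 * |Δ|) ^ 2 + (2 * (S * (S / D))) ^ 2)
      ≤ ∫ x in a..(a + T), |hf r r1 r2 z1 z2 x| := by
    apply P.combine (by linarith) (by positivity) (by positivity)
    · refine le_trans ?_ (P.length_le hT hqper a)
      have e1 := P.length_ge hab
      have e2 := P.length_ge (show b ≤ a + T by linarith)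
      have e3 : (∫ x in a..b, sp r1 z1 x) + ∫ x in b..(a + T), sp r1 z1 x
          = ∫ x in a..(a + T), sp r1 z1 x :=
        integral_add_adjacent_intervals (P.cont_sp.intervalIntegrable _ _)
          (P.cont_sp.intervalIntegrable _ _)
      rw [hzT, abs_sub_comm] at e2
      linarith
    · have e1 := P.pf_var hax
      have e2 := P.pf_var hxb
      have e3 := P.pf_var hby
      have e4 := P.pf_var hyT
      rw [hpx, zero_sub, abs_neg, hpa] at e1
      rw [hpx, sub_zero, hpb] at e2
      rw [hpy, zero_sub, abs_neg, hpb] at e3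
      rw [hpy, hper, sub_zero, hpa] at e4
      have i1 : (∫ x in a..x, |r1 x / sp r1 z1 x| * |hf r r1 r2 z1 z2 x|)
          + (∫ x in x..b, |r1 x / sp r1 z1 x| * |hf r r1 r2 z1 z2 x|)
          = ∫ x in a..b, |r1 x / sp r1 z1 x| * |hf r r1 r2 z1 z2 x| :=
        integral_add_adjacent_intervals (hc2.intervalIntegrable _ _)
          (hc2.intervalIntegrable _ _)
      have i2 : (∫ x in b..y, |r1 x / sp r1 z1 x| * |hf r r1 r2 z1 z2 x|)
          + (∫ x in y..(a + T), |r1 x / sp r1 z1 x| * |hf r r1 r2 z1 z2 x|)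
          = ∫ x in b..(a + T), |r1 x / sp r1 z1 x| * |hf r r1 r2 z1 z2 x| :=
        integral_add_adjacent_intervals (hc2.intervalIntegrable _ _)
          (hc2.intervalIntegrable _ _)
      have i3 : (∫ x in a..b, |r1 x / sp r1 z1 x| * |hf r r1 r2 z1 z2 x|)
          + (∫ x in b..(a + T), |r1 x / sp r1 z1 x| * |hf r r1 r2 z1 z2 x|)
          = ∫ x in a..(a + T), |r1 x / sp r1 z1 x| * |hf r r1 r2 z1 z2 x| :=
        integral_add_adjacent_intervals (hc2.intervalIntegrable _ _)
          (hc2.intervalIntegrable _ _)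
      have : 2 * (S * (S / D)) = 2 * (r a * (S / D)) + 2 * (r b * (S / D)) := by
        rw [hSdef]; ring
      linarith
  refine le_trans ?_ key
  apply Real.le_sqrt_of_sq_le
  have hx1 : (S / D) ^ 2 = S ^ 2 / D ^ 2 := div_pow _ _ _
  set u := S ^ 2 / D ^ 2 with hu
  have e1 : S ^ 2 = u * D ^ 2 := by rw [hu]; field_simp
  have e2 : (2 * |Δ|) ^ 2 = 4 * (D ^ 2 - u * D ^ 2) := by
    rw [mul_pow, sq_abs, ← e1, hD2]; ring
  have e3 : (2 * (S * (S / D))) ^ 2 = 4 * (u ^ 2 * D ^ 2) := by
    have : (2 * (S * (S / D))) ^ 2 = 4 * (S ^ 2 * (S / D) ^ 2) := by ring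
    rw [this, hx1, e1]; ring
  rw [e2, e3]
  have hpi : π < 3.15 := Real.pi_lt_d2
  have hpi0 := Real.pi_pos
  have h3 : (π / 2) ^ 2 ≤ 3 := by nlinarith
  have h4 : 0 ≤ (2 * u - 1) ^ 2 := sq_nonneg _
  have h5 : 0 < D ^ 2 := by positivity
  nlinarith

end Prof

lemma periodic_of_hasDerivAt {f f' : ℝ → ℝ} {T : ℝ} (hf : ∀ x, HasDerivAt f (f' x) x)
    (hT : Function.Periodic f T) : Function.Periodic f' T := by
  intro x
  have h1 : HasDerivAt (fun y => f (y + T)) (f' (x + T)) x := by
    simpa using (hf (x + T)).comp_add_const x T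
  have h2 : (fun y => f (y + T)) = f := funext hT
  rw [h2] at h1
  exact h1.unique (hf x)

/-- squared distance of a point of the surface to the mirror image of another one -/
noncomputable def gfun (r z : ℝ → ℝ) (s t : ℝ) : ℝ := (r s + r t) ^ 2 + (z t - z s) ^ 2

theorem profile_lower {r r1 r2 z z1 z2 : ℝ → ℝ} (P : Prof r r1 r2 z z1 z2) {T : ℝ} (hT : 0 < T)
    (hrT : Function.Periodic r T) (hzT : Function.Periodic z T) (s t : ℝ) :
    π / 2 * √((r s + r t) ^ 2 + (z t - z s) ^ 2)
      ≤ ∫ x in (0)..T, |Prof.hf r r1 r2 z1 z2 x| := by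
  have hr1T : Function.Periodic r1 T := periodic_of_hasDerivAt P.hr hrT
  have hz1T : Function.Periodic z1 T := periodic_of_hasDerivAt P.hz hzT
  have hr2T : Function.Periodic r2 T := periodic_of_hasDerivAt P.hr1 hr1T
  have hz2T : Function.Periodic z2 T := periodic_of_hasDerivAt P.hz1 hz1T
  have hspT : Function.Periodic (Prof.sp r1 z1) T := by
    intro x; simp only [Prof.sp, hr1T x, hz1T x]
  have hpT : Function.Periodic (Prof.pf r r1 z1) T := by
    intro x; simp only [Prof.pf, hrT x, hz1T x, hspT x]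
  have hqT : Function.Periodic (Prof.qf r r1 z1) T := by
    intro x; simp only [Prof.qf, hrT x, hr1T x, hspT x]
  have hhT : Function.Periodic (fun x => |Prof.hf r r1 r2 z1 z2 x|) T := by
    intro x; simp only [Prof.hf, hrT x, hr1T x, hz1T x, hr2T x, hz2T x]
  have hcr := P.cont_r
  have hcz := P.cont_z
  -- maximum
  have hgc : Continuous (fun p : ℝ × ℝ => gfun r z p.1 p.2) := by
    unfold gfun; fun_prop
  obtain ⟨⟨a, b0⟩, -, hmax0⟩ := (isCompact_Icc.prod isCompact_Icc).exists_isMaxOn
    (s := Icc (0 : ℝ) T ×ˢ Icc (0 : ℝ) T) ⟨(0, 0), by simp [hT.le]⟩ hgc.continuousOn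
  have hgT1 : ∀ s t, gfun r z (s + T) t = gfun r z s t := by
    intro s t; simp only [gfun, hrT s, hzT s]
  have hgT2 : ∀ s t, gfun r z s (t + T) = gfun r z s t := by
    intro s t; simp only [gfun, hrT t, hzT t]
  have hmax1 : ∀ s t, gfun r z s t ≤ gfun r z a b0 := by
    intro s t
    have hs : gfun r z s t = gfun r z (toIcoMod hT 0 s) (toIcoMod hT 0 t) := by
      have h1 : Function.Periodic (fun s => gfun r z s t) T := fun s => hgT1 s t
      have h2 : Function.Periodic (fun t => gfun r z (toIcoMod hT 0 s) t) T :=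
        fun t => hgT2 _ t
      have e1 : gfun r z (toIcoMod hT 0 s) t = gfun r z s t := by
        rw [toIcoMod]
        exact h1.sub_zsmul_eq _
      have e2 : gfun r z (toIcoMod hT 0 s) (toIcoMod hT 0 t)
          = gfun r z (toIcoMod hT 0 s) t := by
        conv_lhs => rw [toIcoMod.eq_1 hT 0 t]
        exact h2.sub_zsmul_eq _
      rw [e2, e1]
    rw [hs]
    have hm1 := toIcoMod_mem_Ico hT 0 s
    have hm2 := toIcoMod_mem_Ico hT 0 t
    rw [zero_add] at hm1 hm2
    exact hmax0 (show ((toIcoMod hT 0 s, toIcoMod hT 0 t) : ℝ × ℝ) ∈ _ from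
      ⟨⟨hm1.1, hm1.2.le⟩, ⟨hm2.1, hm2.2.le⟩⟩)
  -- move the second point to `[a, a + T)`
  obtain ⟨b, hab, hbT, hgb⟩ : ∃ b, a ≤ b ∧ b < a + T ∧ gfun r z a b = gfun r z a b0 := by
    have hm := toIcoMod_mem_Ico hT a b0
    refine ⟨toIcoMod hT a b0, hm.1, hm.2, ?_⟩
    have h2 : Function.Periodic (fun t => gfun r z a t) T := fun t => hgT2 a t
    rw [toIcoMod]
    exact h2.sub_zsmul_eq _
  have hmax : ∀ s t, gfun r z s t ≤ gfun r z a b := by
    intro s t; rw [hgb]; exact hmax1 s t
  -- first order conditions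
  have hra := P.pos a
  have hrb := P.pos b
  have hS : 0 < r a + r b := by linarith
  have fa : (r a + r b) * r1 a = (z b - z a) * z1 a := by
    have hd : HasDerivAt (fun s => gfun r z s b)
        (2 * (r a + r b) * r1 a + 2 * (z b - z a) * (- z1 a)) a := by
      unfold gfun
      have h1 := (((P.hr a).add_const (r b)).pow 2).add (((P.hz a).const_sub (z b)).pow 2)
      refine h1.congr_deriv ?_
      push_cast
      ring
    have hloc : IsLocalMax (fun s => gfun r z s b) a :=
      Filter.Eventually.of_forall fun s => hmax s b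
    have := hloc.hasDerivAt_eq_zero hd
    linarith
  have fb : (r a + r b) * r1 b = - (z b - z a) * z1 b := by
    have hd : HasDerivAt (fun t => gfun r z a t)
        (2 * (r a + r b) * r1 b + 2 * (z b - z a) * z1 b) b := by
      unfold gfun
      have h1 := (((P.hr b).const_add (r a)).pow 2).add (((P.hz b).sub_const (z a)).pow 2)
      refine h1.congr_deriv ?_
      push_cast
      ring
    have hloc : IsLocalMax (fun t => gfun r z a t) b :=
      Filter.Eventually.of_forall fun t => hmax a t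
    have := hloc.hasDerivAt_eq_zero hd
    linarith
  have hza : z1 a ≠ 0 := by
    intro h0
    rw [h0, mul_zero] at fa
    have hr0 : r1 a = 0 := (mul_eq_zero.1 fa).resolve_left hS.ne'
    have := P.reg a
    rw [hr0, h0] at this
    norm_num at this
  have hzb : z1 b ≠ 0 := by
    intro h0
    rw [h0, mul_zero] at fb
    have hr0 : r1 b = 0 := (mul_eq_zero.1 fb).resolve_left hS.ne'
    have := P.reg b
    rw [hr0, h0] at this
    norm_num at this
  have hR : ∀ x, r x ≤ √((r a + r b) ^ 2 + (z b - z a) ^ 2) / 2 := by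
    intro x
    rw [le_div_iff₀ (by norm_num)]
    apply Real.le_sqrt_of_sq_le
    have := hmax x x
    simp only [gfun] at this
    nlinarith
  -- reduction to an arbitrary period
  have hshift : ∀ c, ∫ x in c..(c + T), |Prof.hf r r1 r2 z1 z2 x|
      = ∫ x in (0)..T, |Prof.hf r r1 r2 z1 z2 x| := by
    intro c
    have := hhT.intervalIntegral_add_eq c 0
    rw [zero_add] at this
    exact this
  -- a horizontal point on each period
  have hzero : ∃ w ∈ Ico a (a + T), z1 w = 0 := by
    obtain ⟨w, hw, hw0⟩ := exists_hasDerivAt_eq_slope z z1 (show a < a + T by linarith)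
      P.cont_z.continuousOn (fun x _ => P.hz x)
    refine ⟨w, ⟨hw.1.le, hw.2⟩, ?_⟩
    rw [hw0, hzT a]
    simp
  have main : π / 2 * √((r a + r b) ^ 2 + (z b - z a) ^ 2)
      ≤ ∫ x in (0)..T, |Prof.hf r r1 r2 z1 z2 x| := by
    by_cases h1 : ∃ x ∈ Icc a b, z1 x = 0
    · by_cases h2 : ∃ y ∈ Icc b (a + T), z1 y = 0
      · obtain ⟨x, hx, hx0⟩ := h1
        obtain ⟨y, hy, hy0⟩ := h2
        rw [← hshift a]
        exact P.case1 hpT hqT hT hx.1 hx.2 hy.1 hy.2 hx0 hy0 hza hzb (hzT a) fa fb
      · push Not at h2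
        obtain ⟨x, hx, hx0⟩ := h1
        rw [← hshift b]
        have key := P.case2 (T := T) (a := b) (b := a + T) (y := x + T) hpT hqT hT hbT.le
          (by linarith [hx.1]) (by linarith [hx.2]) (by rw [hz1T x, hx0])
          (fun w hw => h2 w hw) (hzT b)
          (by rw [hrT a, hzT a]; linarith)
          (by rw [hrT a, hzT a, hr1T a, hz1T a]; linarith)
          (by
            intro w
            rw [hrT a, hzT a]
            have := hR w
            rwa [show (r b + r a) ^ 2 + (z a - z b) ^ 2 = (r a + r b) ^ 2 + (z b - z a) ^ 2 by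
              ring])
        rw [hrT a, hzT a, show (r b + r a) ^ 2 + (z a - z b) ^ 2
          = (r a + r b) ^ 2 + (z b - z a) ^ 2 by ring] at key
        exact key
    · push Not at h1
      obtain ⟨w, hw, hw0⟩ := hzero
      have hbw : b ≤ w := by
        by_contra hcon
        push Not at hcon
        exact h1 w ⟨hw.1, hcon.le⟩ hw0
      rw [← hshift a]
      exact P.case2 (T := T) hpT hqT hT hab hbw hw.2.le hw0 (fun x hx => h1 x hx) (hzT a) fa fb hR
  refine le_trans ?_ main
  have := hmax s t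
  simp only [gfun] at this
  gcongr

end Pool.Agent.Lib.MP_bea121_gt
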