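import Pool.Agent.Lib.MP_bea121_gt.SliceMain

/-!
# Total absolute mean curvature of surfaces sliced by closed curves

A surface in `ℝ³` of height `d` whose horizontal slices are single closed curves satisfies
`∫ |H| > π d`, provided `H` has the sign of a convex surface at all points where the tangent plane
is within about `14.5` degrees of the horizontal.
-/

open Real MeasureTheory Set Filter Topology

namespace Pool.Agent.Lib.MP_bea121_gt.SingleCurveSlices

/-- Euclidean three-space. -/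
abbrev E3 : Type := EuclideanSpace ℝ (Fin 3)

/-- The vector product of `ℝ³`. -/
noncomputable def cross (a b : E3) : E3 := WithLp.toLp 2 (crossProduct a.ofLp b.ofLp)

/-- Partial derivative `∂f/∂u` of a parametrised surface `f u v`. -/
noncomputable def dU (f : ℝ → ℝ → E3) : ℝ → ℝ → E3 := fun u v => deriv (fun t => f t v) u

/-- Partial derivative `∂f/∂v` of a parametrised surface `f u v`. -/
noncomputable def dV (f : ℝ → ℝ → E3) : ℝ → ℝ → E3 := fun u v => deriv (fun t => f u t) v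

/-- First fundamental form coefficient `E = ⟨f_u, f_u⟩`. -/
noncomputable def gE (f : ℝ → ℝ → E3) (u v : ℝ) : ℝ := inner ℝ (dU f u v) (dU f u v)

/-- First fundamental form coefficient `F = ⟨f_u, f_v⟩`. -/
noncomputable def gF (f : ℝ → ℝ → E3) (u v : ℝ) : ℝ := inner ℝ (dU f u v) (dV f u v)

/-- First fundamental form coefficient `G = ⟨f_v, f_v⟩`. -/
noncomputable def gG (f : ℝ → ℝ → E3) (u v : ℝ) : ℝ := inner ℝ (dV f u v) (dV f u v)

/-- Area density `√(EG - F²)`. -/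
noncomputable def areaDensity (f : ℝ → ℝ → E3) (u v : ℝ) : ℝ :=
  √(gE f u v * gG f u v - gF f u v ^ 2)

/-- Unit normal `(f_u × f_v) / √(EG - F²)`. -/
noncomputable def unitNormal (f : ℝ → ℝ → E3) (u v : ℝ) : E3 :=
  (areaDensity f u v)⁻¹ • cross (dU f u v) (dV f u v)

/-- Second fundamental form coefficient `L = ⟨f_uu, n⟩`. -/
noncomputable def sL (f : ℝ → ℝ → E3) (u v : ℝ) : ℝ := inner ℝ (dU (dU f) u v) (unitNormal f u v)

/-- Second fundamental form coefficient `M = ⟨f_uv, n⟩`. -/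
noncomputable def sM (f : ℝ → ℝ → E3) (u v : ℝ) : ℝ := inner ℝ (dV (dU f) u v) (unitNormal f u v)

/-- Second fundamental form coefficient `N = ⟨f_vv, n⟩`. -/
noncomputable def sN (f : ℝ → ℝ → E3) (u v : ℝ) : ℝ := inner ℝ (dV (dV f) u v) (unitNormal f u v)

/-- Mean curvature, the average of the two principal curvatures:
`H = (EN - 2FM + GL) / (2 (EG - F²))`. -/
noncomputable def meanCurvature (f : ℝ → ℝ → E3) (u v : ℝ) : ℝ :=
  (gE f u v * sN f u v - 2 * gF f u v * sM f u v + gG f u v * sL f u v)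
    / (2 * (gE f u v * gG f u v - gF f u v ^ 2))

/-- The surface `(t, h) ↦ (X (t, h), Y (t, h), h)`; its slice at height `h` is the curve
`t ↦ (X (t, h), Y (t, h))`. -/
noncomputable def sliced (X Y : ℝ → ℝ → ℝ) : ℝ → ℝ → E3 := fun t h => !₂[X t h, Y t h, h]

/-- Length of the slice at height `h`. -/
noncomputable def sliceLength (X Y : ℝ → ℝ → ℝ) (h : ℝ) : ℝ :=
  ∫ t in (0:ℝ)..1, √(deriv (fun s => X s h) t ^ 2 + deriv (fun s => Y s h) t ^ 2)

/-- Total signed curvature of the slice at height `h` (`2π` times its turning number). -/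
noncomputable def sliceCurvature (X Y : ℝ → ℝ → ℝ) (h : ℝ) : ℝ :=
  ∫ t in (0:ℝ)..1,
    (deriv (fun s => X s h) t * deriv (deriv fun s => Y s h) t
      - deriv (fun s => Y s h) t * deriv (deriv fun s => X s h) t)
    / (deriv (fun s => X s h) t ^ 2 + deriv (fun s => Y s h) t ^ 2)

/-- Surfaces of class `C²` over the heights `0 < h < d` whose slices are regular closed curves with
lengths tending to `0` at both ends. -/
structure IsSliced (X Y : ℝ → ℝ → ℝ) (d : ℝ) : Prop where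
  height_pos : 0 < d
  smoothX : ContDiffOn ℝ 2 (fun p : ℝ × ℝ => X p.1 p.2) (univ ×ˢ Ioo 0 d)
  smoothY : ContDiffOn ℝ 2 (fun p : ℝ × ℝ => Y p.1 p.2) (univ ×ˢ Ioo 0 d)
  periodicX : ∀ h ∈ Ioo 0 d, Function.Periodic (fun t => X t h) 1
  periodicY : ∀ h ∈ Ioo 0 d, Function.Periodic (fun t => Y t h) 1
  regular : ∀ t, ∀ h ∈ Ioo 0 d, deriv (fun s => X s h) t ≠ 0 ∨ deriv (fun s => Y s h) t ≠ 0
  closes_bottom : Tendsto (sliceLength X Y) (𝓝[>] 0) (𝓝 0)
  closes_top : Tendsto (sliceLength X Y) (𝓝[<] d) (𝓝 0)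

/-- Integral of `|H|` over the surface (heights `0 < h < d`) with respect to the area measure. -/
noncomputable def totalAbsMeanCurvature (X Y : ℝ → ℝ → ℝ) (d : ℝ) : ENNReal :=
  ∫⁻ h in Ioo 0 d, ∫⁻ t in Ioo (0:ℝ) 1,
    ENNReal.ofReal (|meanCurvature (sliced X Y) t h| * areaDensity (sliced X Y) t h)

/-- The surface as a subset of `ℝ³`. -/
def image (X Y : ℝ → ℝ → ℝ) (d : ℝ) : Set E3 :=
  {x | ∃ t, ∃ h ∈ Ioo 0 d, x = sliced X Y t h}

/-! ### Computations -/

lemma hasDerivAt_E3 {f g h : ℝ → ℝ} {f' g' h' x : ℝ} (hf : HasDerivAt f f' x)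
    (hg : HasDerivAt g g' x) (hh : HasDerivAt h h' x) :
    HasDerivAt (fun t => (!₂[f t, g t, h t] : E3)) !₂[f', g', h'] x := by
  have h1 : HasDerivAt (fun t => ![f t, g t, h t]) ![f', g', h'] x := by
    rw [hasDerivAt_pi]
    intro i
    fin_cases i
    · simpa using hf
    · simpa using hg
    · simpa using hh
  exact (PiLp.hasFDerivAt_toLp 2 _).comp_hasDerivAt x h1

lemma inner_E3 (a b c d e f : ℝ) :
    inner ℝ (!₂[a, b, c] : E3) !₂[d, e, f] = a * d + b * e + c * f := by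
  simp [PiLp.inner_apply, Fin.sum_univ_three]
  ring

lemma cross_E3 (a b c d e f : ℝ) :
    cross !₂[a, b, c] !₂[d, e, f] = !₂[b * f - c * e, c * d - a * f, a * e - b * d] := by
  simp [cross, crossProduct]

lemma smul_E3 (k a b c : ℝ) : k • (!₂[a, b, c] : E3) = !₂[k * a, k * b, k * c] := by
  ext i
  fin_cases i <;> simp

/-! ### Partial derivatives of a `C²` function on the strip -/

section partials

variable {F : ℝ × ℝ → ℝ} {d : ℝ}

/-- first partial derivatives through `fderiv`. -/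
noncomputable def p1 (F : ℝ × ℝ → ℝ) (p : ℝ × ℝ) : ℝ := fderiv ℝ F p (1, 0)

/-- second coordinate partial derivative. -/
noncomputable def p2 (F : ℝ × ℝ → ℝ) (p : ℝ × ℝ) : ℝ := fderiv ℝ F p (0, 1)

lemma isOpen_strip : IsOpen (univ ×ˢ Ioo 0 d : Set (ℝ × ℝ)) := isOpen_univ.prod isOpen_Ioo

lemma p1_contDiffOn (hF : ContDiffOn ℝ 2 F (univ ×ˢ Ioo 0 d)) :
    ContDiffOn ℝ 1 (p1 F) (univ ×ˢ Ioo 0 d) := by
  have h := hF.fderiv_of_isOpen (m := 1) isOpen_strip (by norm_num)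
  exact h.clm_apply contDiffOn_const

lemma p2_contDiffOn (hF : ContDiffOn ℝ 2 F (univ ×ˢ Ioo 0 d)) :
    ContDiffOn ℝ 1 (p2 F) (univ ×ˢ Ioo 0 d) := by
  have h := hF.fderiv_of_isOpen (m := 1) isOpen_strip (by norm_num)
  exact h.clm_apply contDiffOn_const

lemma p1_continuousOn (hF : ContDiffOn ℝ 1 F (univ ×ˢ Ioo 0 d)) :
    ContinuousOn (p1 F) (univ ×ˢ Ioo 0 d) :=
  (hF.continuousOn_fderiv_of_isOpen isOpen_strip le_rfl).clm_apply continuousOn_const

lemma p2_continuousOn (hF : ContDiffOn ℝ 1 F (univ ×ˢ Ioo 0 d)) :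
    ContinuousOn (p2 F) (univ ×ˢ Ioo 0 d) :=
  (hF.continuousOn_fderiv_of_isOpen isOpen_strip le_rfl).clm_apply continuousOn_const

lemma diffAt (hF : ContDiffOn ℝ 1 F (univ ×ˢ Ioo 0 d)) (t : ℝ) {h : ℝ} (hh : h ∈ Ioo 0 d) :
    DifferentiableAt ℝ F (t, h) :=
  (hF.differentiableOn one_ne_zero).differentiableAt (isOpen_strip.mem_nhds (by simpa using hh))

lemma hasDerivAt_p1 (hF : ContDiffOn ℝ 1 F (univ ×ˢ Ioo 0 d)) (t : ℝ) {h : ℝ}
    (hh : h ∈ Ioo 0 d) : HasDerivAt (fun s => F (s, h)) (p1 F (t, h)) t := by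
  have h1 := (diffAt hF t hh).hasFDerivAt
  have h2 : HasDerivAt (fun s : ℝ => (s, h)) ((1 : ℝ), (0 : ℝ)) t :=
    (hasDerivAt_id t).prodMk (hasDerivAt_const t h)
  exact h1.comp_hasDerivAt t h2

lemma hasDerivAt_p2 (hF : ContDiffOn ℝ 1 F (univ ×ˢ Ioo 0 d)) (t : ℝ) {h : ℝ}
    (hh : h ∈ Ioo 0 d) : HasDerivAt (fun k => F (t, k)) (p2 F (t, h)) h := by
  have h1 := (diffAt hF t hh).hasFDerivAt
  have h2 : HasDerivAt (fun k : ℝ => (t, k)) ((0 : ℝ), (1 : ℝ)) h :=
    (hasDerivAt_const h t).prodMk (hasDerivAt_id h)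
  exact h1.comp_hasDerivAt h h2

lemma p12_eq (hF : ContDiffOn ℝ 2 F (univ ×ˢ Ioo 0 d)) {p : ℝ × ℝ} (hp : p ∈ univ ×ˢ Ioo 0 d) :
    p2 (p1 F) p = p1 (p2 F) p := by
  have hnb := isOpen_strip.mem_nhds hp
  have hs : IsSymmSndFDerivAt ℝ F p :=
    (hF.contDiffAt hnb).isSymmSndFDerivAt (by simp)
  have hd : DifferentiableAt ℝ (fderiv ℝ F) p :=
    ((hF.fderiv_of_isOpen (m := 1) isOpen_strip (by norm_num)).differentiableOn
      one_ne_zero).differentiableAt hnb
  have e1 : ∀ v w : ℝ × ℝ, fderiv ℝ (fun q => fderiv ℝ F q v) p w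
      = fderiv ℝ (fderiv ℝ F) p w v := by
    intro v w
    have h1 := (hd.hasFDerivAt.clm_apply (hasFDerivAt_const v p)).fderiv
    rw [h1]
    simp
  unfold p2 p1
  rw [e1, e1]
  exact hs (0, 1) (1, 0)

end partials

section surface

variable {X Y : ℝ → ℝ → ℝ} {d : ℝ}

/-- uncurried form -/
def unc (X : ℝ → ℝ → ℝ) (p : ℝ × ℝ) : ℝ := X p.1 p.2

lemma periodic_deriv {f f' : ℝ → ℝ} (hf : Function.Periodic f 1)
    (h : ∀ x, HasDerivAt f (f' x) x) : f' 1 = f' 0 := by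
  have h1 : HasDerivAt (fun x => f (x + 1)) (f' 1) 0 := by
    have := (h (0 + 1)).comp_add_const 0 1
    simpa using this
  have h2 : (fun x => f (x + 1)) = f := funext hf
  rw [h2] at h1
  exact h1.unique (h 0)

lemma strip_of (hS : IsSliced X Y d) :
    Pool.Agent.Lib.MP_bea121_gt.Strip (p1 (unc X)) (p2 (unc X)) (p1 (unc Y)) (p2 (unc Y))
      (p1 (p1 (unc X))) (p2 (p1 (unc X))) (p2 (p2 (unc X)))
      (p1 (p1 (unc Y))) (p2 (p1 (unc Y))) (p2 (p2 (unc Y))) d := by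
  have hX : ContDiffOn ℝ 2 (unc X) (univ ×ˢ Ioo 0 d) := hS.smoothX
  have hY : ContDiffOn ℝ 2 (unc Y) (univ ×ˢ Ioo 0 d) := hS.smoothY
  have hX1 := p1_contDiffOn hX
  have hX2 := p2_contDiffOn hX
  have hY1 := p1_contDiffOn hY
  have hY2 := p2_contDiffOn hY
  have hX' : ContDiffOn ℝ 1 (unc X) (univ ×ˢ Ioo 0 d) := hX.of_le (by norm_num)
  have hY' : ContDiffOn ℝ 1 (unc Y) (univ ×ˢ Ioo 0 d) := hY.of_le (by norm_num)
  have hmem : ∀ t : ℝ, ∀ h ∈ Ioo 0 d, (t, h) ∈ (univ ×ˢ Ioo 0 d : Set (ℝ × ℝ)) := by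
    intro t h hh
    simpa using hh
  have per2 : ∀ {Z : ℝ → ℝ → ℝ}, ContDiffOn ℝ 1 (unc Z) (univ ×ˢ Ioo 0 d) →
      (∀ h ∈ Ioo 0 d, Function.Periodic (fun t => Z t h) 1) →
      ∀ h ∈ Ioo 0 d, p2 (unc Z) (1, h) = p2 (unc Z) (0, h) := by
    intro Z hZ hper h hh
    have e1 := hasDerivAt_p2 hZ 1 hh
    have e2 := hasDerivAt_p2 hZ 0 hh
    have e3 : (fun k => unc Z (1, k)) =ᶠ[𝓝 h] (fun k => unc Z (0, k)) := by
      filter_upwards [Ioo_mem_nhds hh.1 hh.2] with k hk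
      have := hper k hk 0
      simpa [unc] using this
    exact (e1.congr_of_eventuallyEq e3.symm).unique e2
  exact
    { hx1t := fun t h hh => hasDerivAt_p1 hX1 t hh
      hx1h := fun t h hh => hasDerivAt_p2 hX1 t hh
      hx2t := fun t h hh => by
        rw [p12_eq hX (hmem t h hh)]
        exact hasDerivAt_p1 hX2 t hh
      hx2h := fun t h hh => hasDerivAt_p2 hX2 t hh
      hy1t := fun t h hh => hasDerivAt_p1 hY1 t hh
      hy1h := fun t h hh => hasDerivAt_p2 hY1 t hh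
      hy2t := fun t h hh => by
        rw [p12_eq hY (hmem t h hh)]
        exact hasDerivAt_p1 hY2 t hh
      hy2h := fun t h hh => hasDerivAt_p2 hY2 t hh
      cx1 := hX1.continuousOn
      cx2 := hX2.continuousOn
      cy1 := hY1.continuousOn
      cy2 := hY2.continuousOn
      cx11 := p1_continuousOn hX1
      cx12 := p2_continuousOn hX1
      cx22 := p2_continuousOn hX2
      cy11 := p1_continuousOn hY1
      cy12 := p2_continuousOn hY1
      cy22 := p2_continuousOn hY2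
      reg := by
        rintro ⟨t, h⟩ hp
        have hh : h ∈ Ioo 0 d := Pool.Agent.Lib.MP_bea121_gt.mem_strip.1 hp
        have e1 : deriv (fun s => X s h) t = p1 (unc X) (t, h) := (hasDerivAt_p1 hX' t hh).deriv
        have e2 : deriv (fun s => Y s h) t = p1 (unc Y) (t, h) := (hasDerivAt_p1 hY' t hh).deriv
        rcases hS.regular t h hh with h3 | h3
        · rw [e1] at h3
          have := sq_nonneg (p1 (unc Y) (t, h))
          positivity
        · rw [e2] at h3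
          have := sq_nonneg (p1 (unc X) (t, h))
          positivity
      px1 := fun h hh => periodic_deriv (hS.periodicX h hh) (fun t => hasDerivAt_p1 hX' t hh)
      px2 := per2 hX' hS.periodicX
      py1 := fun h hh => periodic_deriv (hS.periodicY h hh) (fun t => hasDerivAt_p1 hY' t hh)
      py2 := per2 hY' hS.periodicY }

/-- `-2 H` times the area density. -/
noncomputable def mdd (X Y : ℝ → ℝ → ℝ) : ℝ × ℝ → ℝ :=
  Pool.Agent.Lib.MP_bea121_gt.md (p1 (unc X)) (p2 (unc X)) (p1 (unc Y)) (p2 (unc Y))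
      (p1 (p1 (unc X))) (p2 (p1 (unc X))) (p2 (p2 (unc X)))
      (p1 (p1 (unc Y))) (p2 (p1 (unc Y))) (p2 (p2 (unc Y)))

/-- normal velocity of the slices. -/
noncomputable def nvv (X Y : ℝ → ℝ → ℝ) : ℝ × ℝ → ℝ :=
  Pool.Agent.Lib.MP_bea121_gt.nv (p1 (unc X)) (p2 (unc X)) (p1 (unc Y)) (p2 (unc Y))

lemma surface_formulas (hS : IsSliced X Y d) (t : ℝ) {h : ℝ} (hh : h ∈ Ioo 0 d) :
    0 < areaDensity (sliced X Y) t h ∧
    -2 * (meanCurvature (sliced X Y) t h * areaDensity (sliced X Y) t h) = mdd X Y (t, h) ∧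
    (unitNormal (sliced X Y) t h).ofLp 2
      = - (nvv X Y (t, h) / √(1 + nvv X Y (t, h) ^ 2)) := by
  have S := strip_of hS
  have hX' : ContDiffOn ℝ 1 (unc X) (univ ×ˢ Ioo 0 d) := hS.smoothX.of_le (by norm_num)
  have hY' : ContDiffOn ℝ 1 (unc Y) (univ ×ˢ Ioo 0 d) := hS.smoothY.of_le (by norm_num)
  have e1 : ∀ t, ∀ h ∈ Ioo 0 d, dU (sliced X Y) t h
      = !₂[p1 (unc X) (t, h), p1 (unc Y) (t, h), 0] := by
    intro t h hh
    exact (hasDerivAt_E3 (hasDerivAt_p1 hX' t hh) (hasDerivAt_p1 hY' t hh)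
      (hasDerivAt_const t h)).deriv
  have e2 : ∀ t, ∀ h ∈ Ioo 0 d, dV (sliced X Y) t h
      = !₂[p2 (unc X) (t, h), p2 (unc Y) (t, h), 1] := by
    intro t h hh
    exact (hasDerivAt_E3 (hasDerivAt_p2 hX' t hh) (hasDerivAt_p2 hY' t hh)
      (hasDerivAt_id h)).deriv
  have e11 : dU (dU (sliced X Y)) t h
      = !₂[p1 (p1 (unc X)) (t, h), p1 (p1 (unc Y)) (t, h), 0] := by
    have : (fun s => dU (sliced X Y) s h)
        = fun s => !₂[p1 (unc X) (s, h), p1 (unc Y) (s, h), 0] := funext fun s => e1 s h hh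
    rw [dU, this]
    exact (hasDerivAt_E3 (S.hx1t t h hh) (S.hy1t t h hh) (hasDerivAt_const t 0)).deriv
  have e12 : dV (dU (sliced X Y)) t h
      = !₂[p2 (p1 (unc X)) (t, h), p2 (p1 (unc Y)) (t, h), 0] := by
    have : (fun k => dU (sliced X Y) t k)
        =ᶠ[𝓝 h] fun k => !₂[p1 (unc X) (t, k), p1 (unc Y) (t, k), 0] := by
      filter_upwards [Ioo_mem_nhds hh.1 hh.2] with k hk
      exact e1 t k hk
    rw [dV, this.deriv_eq]
    exact (hasDerivAt_E3 (S.hx1h t h hh) (S.hy1h t h hh) (hasDerivAt_const h 0)).deriv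
  have e22 : dV (dV (sliced X Y)) t h
      = !₂[p2 (p2 (unc X)) (t, h), p2 (p2 (unc Y)) (t, h), 0] := by
    have : (fun k => dV (sliced X Y) t k)
        =ᶠ[𝓝 h] fun k => !₂[p2 (unc X) (t, k), p2 (unc Y) (t, k), 1] := by
      filter_upwards [Ioo_mem_nhds hh.1 hh.2] with k hk
      exact e2 t k hk
    rw [dV, this.deriv_eq]
    exact (hasDerivAt_E3 (S.hx2h t h hh) (S.hy2h t h hh) (hasDerivAt_const h 1)).deriv
  have hreg := S.reg (t, h) (Pool.Agent.Lib.MP_bea121_gt.mem_strip.2 hh)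
  set x1 := p1 (unc X) (t, h) with hx1
  set y1 := p1 (unc Y) (t, h) with hy1
  set x2 := p2 (unc X) (t, h) with hx2
  set y2 := p2 (unc Y) (t, h) with hy2
  have f1 : dU (sliced X Y) t h = !₂[x1, y1, 0] := e1 t h hh
  have f2 : dV (sliced X Y) t h = !₂[x2, y2, 1] := e2 t h hh
  have hE : gE (sliced X Y) t h = x1 ^ 2 + y1 ^ 2 := by
    simp only [gE, f1, inner_E3]
    ring
  have hF : gF (sliced X Y) t h = x1 * x2 + y1 * y2 := by
    simp only [gF, f1, f2, inner_E3]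
    ring
  have hG : gG (sliced X Y) t h = x2 ^ 2 + y2 ^ 2 + 1 := by
    simp only [gG, f2, inner_E3]
    ring
  have hdet : gE (sliced X Y) t h * gG (sliced X Y) t h - gF (sliced X Y) t h ^ 2
      = x1 ^ 2 + y1 ^ 2 + (x2 * y1 - y2 * x1) ^ 2 := by
    rw [hE, hF, hG]; ring
  have hdpos : 0 < x1 ^ 2 + y1 ^ 2 + (x2 * y1 - y2 * x1) ^ 2 := by positivity
  have hA : areaDensity (sliced X Y) t h = √(x1 ^ 2 + y1 ^ 2 + (x2 * y1 - y2 * x1) ^ 2) := by
    rw [areaDensity, hdet]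
  set W := √(x1 ^ 2 + y1 ^ 2 + (x2 * y1 - y2 * x1) ^ 2) with hW
  have hWpos : 0 < W := Real.sqrt_pos.2 hdpos
  have hW2 : W ^ 2 = x1 ^ 2 + y1 ^ 2 + (x2 * y1 - y2 * x1) ^ 2 := Real.sq_sqrt hdpos.le
  have hn : unitNormal (sliced X Y) t h
      = !₂[W⁻¹ * y1, W⁻¹ * (- x1), W⁻¹ * (- (x2 * y1 - y2 * x1))] := by
    rw [unitNormal, hA, f1, f2]
    simp only [cross_E3, smul_E3]
    have a1 : y1 * 1 - 0 * y2 = y1 := by ring
    have a2 : 0 * x2 - x1 * 1 = - x1 := by ring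
    have a3 : x1 * y2 - y1 * x2 = - (x2 * y1 - y2 * x1) := by ring
    rw [a1, a2, a3]
  have hL : sL (sliced X Y) t h
      = (p1 (p1 (unc X)) (t, h) * y1 - p1 (p1 (unc Y)) (t, h) * x1) / W := by
    simp only [sL, e11, hn, inner_E3]
    field_simp
    ring
  have hM : sM (sliced X Y) t h
      = (p2 (p1 (unc X)) (t, h) * y1 - p2 (p1 (unc Y)) (t, h) * x1) / W := by
    simp only [sM, e12, hn, inner_E3]
    field_simp
    ring
  have hN : sN (sliced X Y) t h
      = (p2 (p2 (unc X)) (t, h) * y1 - p2 (p2 (unc Y)) (t, h) * x1) / W := by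
    simp only [sN, e22, hn, inner_E3]
    field_simp
    ring
  refine ⟨?_, ?_, ?_⟩
  · rw [hA]
    exact hWpos
  · rw [meanCurvature, hdet, hE, hF, hG, hL, hM, hN, hA]
    simp only [mdd, Pool.Agent.Lib.MP_bea121_gt.md]
    rw [← hx1, ← hy1, ← hx2, ← hy2]
    have := hdpos.ne'
    have := hWpos.ne'
    field_simp
    ring
  · rw [hn]
    simp only [nvv, Pool.Agent.Lib.MP_bea121_gt.nv, Pool.Agent.Lib.MP_bea121_gt.rho]
    rw [← hx1, ← hy1, ← hx2, ← hy2]
    have hr : 0 < √(x1 ^ 2 + y1 ^ 2) := Real.sqrt_pos.2 hreg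
    have hr2 : √(x1 ^ 2 + y1 ^ 2) ^ 2 = x1 ^ 2 + y1 ^ 2 := Real.sq_sqrt hreg.le
    have hs : √(1 + ((x2 * y1 - y2 * x1) / √(x1 ^ 2 + y1 ^ 2)) ^ 2)
        = W / √(x1 ^ 2 + y1 ^ 2) := by
      rw [hW, ← Real.sqrt_div hdpos.le]
      congr 1
      rw [div_pow, hr2]
      field_simp
    rw [hs]
    simp
    field_simp
    ring

/-- The condition on the normal in terms of the normal velocity of slices. -/
lemma condition_iff {v n : ℝ} (hn : n = - (v / √(1 + v ^ 2))) (h : |n| * artanh |n| < 2) :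
    -1 < Pool.Agent.Lib.MP_bea121_gt.psi v := by
  have hs : 0 < √(1 + v ^ 2) := Real.sqrt_pos.2 (by positivity)
  have h1 : |n| = |v| / √(1 + |v| ^ 2) := by
    rw [hn, abs_neg, abs_div, abs_of_pos hs, sq_abs]
  have h2 : artanh |n| = arsinh |v| := by
    rw [h1, ← tanh_arsinh, artanh_tanh]
  have h3 : |v| * arsinh |v| = v * arsinh v := by
    rcases le_total 0 v with hv | hv
    · rw [abs_of_nonneg hv]
    · rw [abs_of_nonpos hv, arsinh_neg]
      ring
  rw [h2, h1, sq_abs] at h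
  unfold Pool.Agent.Lib.MP_bea121_gt.psi
  have h4 : v * arsinh v / √(1 + v ^ 2) = |v| / √(1 + v ^ 2) * arsinh |v| := by
    rw [← h3]
    ring
  rw [h4]
  linarith

end surface

theorem result : ∀ (X Y : ℝ → ℝ → ℝ) (d : ℝ), IsSliced X Y d →
    (∀ h ∈ Ioo 0 d, 2 * π ≤ sliceCurvature X Y h) →
    (∀ t, ∀ h ∈ Ioo 0 d,
      |(unitNormal (sliced X Y) t h).ofLp 2| * artanh |(unitNormal (sliced X Y) t h).ofLp 2| < 2
        ∨ meanCurvature (sliced X Y) t h ≤ 0) →
    ENNReal.ofReal (π * d) < totalAbsMeanCurvature X Y d ∧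
    (Metric.ediam (image X Y d) ≤ ENNReal.ofReal d →
      ENNReal.ofReal π * Metric.ediam (image X Y d) < totalAbsMeanCurvature X Y d) := by
  intro X Y d hS hK hcond
  have S := strip_of hS
  have hX' : ContDiffOn ℝ 1 (unc X) (univ ×ˢ Ioo 0 d) := hS.smoothX.of_le (by norm_num)
  have hY' : ContDiffOn ℝ 1 (unc Y) (univ ×ˢ Ioo 0 d) := hS.smoothY.of_le (by norm_num)
  have e1 : ∀ t, ∀ h ∈ Ioo 0 d, deriv (fun s => X s h) t = p1 (unc X) (t, h) :=
    fun t h hh => (hasDerivAt_p1 hX' t hh).deriv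
  have e2 : ∀ t, ∀ h ∈ Ioo 0 d, deriv (fun s => Y s h) t = p1 (unc Y) (t, h) :=
    fun t h hh => (hasDerivAt_p1 hY' t hh).deriv
  have e11 : ∀ t, ∀ h ∈ Ioo 0 d, deriv (deriv fun s => X s h) t = p1 (p1 (unc X)) (t, h) := by
    intro t h hh
    have : (deriv fun s => X s h) = fun s => p1 (unc X) (s, h) := funext fun s => e1 s h hh
    rw [this]
    exact (S.hx1t t h hh).deriv
  have e22 : ∀ t, ∀ h ∈ Ioo 0 d, deriv (deriv fun s => Y s h) t = p1 (p1 (unc Y)) (t, h) := by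
    intro t h hh
    have : (deriv fun s => Y s h) = fun s => p1 (unc Y) (s, h) := funext fun s => e2 s h hh
    rw [this]
    exact (S.hy1t t h hh).deriv
  have hlen : ∀ h ∈ Ioo 0 d, sliceLength X Y h
      = Pool.Agent.Lib.MP_bea121_gt.len (p1 (unc X)) (p1 (unc Y)) h := by
    intro h hh
    unfold sliceLength Pool.Agent.Lib.MP_bea121_gt.len Pool.Agent.Lib.MP_bea121_gt.rho
    apply intervalIntegral.integral_congr
    intro t _
    simp only [e1 t h hh, e2 t h hh]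
  have hlen0 : Tendsto (Pool.Agent.Lib.MP_bea121_gt.len (p1 (unc X)) (p1 (unc Y)))
      (𝓝[>] 0) (𝓝 0) := by
    refine hS.closes_bottom.congr' ?_
    filter_upwards [Ioo_mem_nhdsGT hS.height_pos] with h hh using hlen h hh
  have hlend : Tendsto (Pool.Agent.Lib.MP_bea121_gt.len (p1 (unc X)) (p1 (unc Y)))
      (𝓝[<] d) (𝓝 0) := by
    refine hS.closes_top.congr' ?_
    filter_upwards [Ioo_mem_nhdsLT hS.height_pos] with h hh using hlen h hh
  have hK' : ∀ h ∈ Ioo 0 d, 2 * π ≤ ∫ t in (0:ℝ)..1, Pool.Agent.Lib.MP_bea121_gt.kd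
      (p1 (unc X)) (p1 (unc Y)) (p1 (p1 (unc X))) (p1 (p1 (unc Y))) (t, h) := by
    intro h hh
    refine (hK h hh).trans_eq ?_
    unfold sliceCurvature Pool.Agent.Lib.MP_bea121_gt.kd
    apply intervalIntegral.integral_congr
    intro t _
    simp only [e1 t h hh, e2 t h hh, e11 t h hh, e22 t h hh]
  have hcond' : ∀ p ∈ Pool.Agent.Lib.MP_bea121_gt.stripSet d,
      -1 < Pool.Agent.Lib.MP_bea121_gt.psi (nvv X Y p) ∨ 0 ≤ mdd X Y p := by
    rintro ⟨t, h⟩ hp
    have hh : h ∈ Ioo 0 d := Pool.Agent.Lib.MP_bea121_gt.mem_strip.1 hp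
    obtain ⟨hA, hH, hn⟩ := surface_formulas hS t hh
    rcases hcond t h hh with hc | hc
    · left
      exact condition_iff hn hc
    · right
      rw [← hH]
      have := mul_nonneg (neg_nonneg.2 hc) hA.le
      linarith
  have main := S.lower_bound_lintegral hS.height_pos hlen0 hlend hK' hcond'
  have htotal : totalAbsMeanCurvature X Y d
      = ∫⁻ h in Ioo 0 d, ∫⁻ t in Ioo (0:ℝ) 1, ENNReal.ofReal (|mdd X Y (t, h)| / 2) := by
    unfold totalAbsMeanCurvature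
    apply setLIntegral_congr_fun measurableSet_Ioo
    intro h hh
    simp only
    apply lintegral_congr
    intro t
    obtain ⟨hA, hH, hn⟩ := surface_formulas hS t hh
    congr 1
    rw [← hH, abs_mul, abs_mul, abs_of_pos hA]
    norm_num
  have hmain : ENNReal.ofReal (π * d) < totalAbsMeanCurvature X Y d := by
    rw [htotal]
    exact main
  refine ⟨hmain, fun hdiam => lt_of_le_of_lt ?_ hmain⟩
  rw [ENNReal.ofReal_mul Real.pi_pos.le]
  gcongr

end Pool.Agent.Lib.MP_bea121_gt.SingleCurveSlices
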