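import Mathlib

/-!
# A divergence identity for surfaces sliced by closed curves

The surface is `(t, h) ↦ (X (t, h), Y (t, h), h)`.  We only use the first partial derivatives
`x1 = X_t`, `x2 = X_h`, `y1 = Y_t`, `y2 = Y_h` and the second ones.
-/

open Real MeasureTheory Set Filter Topology

namespace Pool.Agent.Lib.MP_bea121_gt

/-- The open strip `0 < h < d`. -/
def stripSet (d : ℝ) : Set (ℝ × ℝ) := univ ×ˢ Ioo 0 d

/-- Derivative data of a strip of a surface. -/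
structure Strip (x1 x2 y1 y2 x11 x12 x22 y11 y12 y22 : ℝ × ℝ → ℝ) (d : ℝ) : Prop where
  hx1t : ∀ t, ∀ h ∈ Ioo 0 d, HasDerivAt (fun s => x1 (s, h)) (x11 (t, h)) t
  hx1h : ∀ t, ∀ h ∈ Ioo 0 d, HasDerivAt (fun k => x1 (t, k)) (x12 (t, h)) h
  hx2t : ∀ t, ∀ h ∈ Ioo 0 d, HasDerivAt (fun s => x2 (s, h)) (x12 (t, h)) t
  hx2h : ∀ t, ∀ h ∈ Ioo 0 d, HasDerivAt (fun k => x2 (t, k)) (x22 (t, h)) h
  hy1t : ∀ t, ∀ h ∈ Ioo 0 d, HasDerivAt (fun s => y1 (s, h)) (y11 (t, h)) t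
  hy1h : ∀ t, ∀ h ∈ Ioo 0 d, HasDerivAt (fun k => y1 (t, k)) (y12 (t, h)) h
  hy2t : ∀ t, ∀ h ∈ Ioo 0 d, HasDerivAt (fun s => y2 (s, h)) (y12 (t, h)) t
  hy2h : ∀ t, ∀ h ∈ Ioo 0 d, HasDerivAt (fun k => y2 (t, k)) (y22 (t, h)) h
  cx1 : ContinuousOn x1 (stripSet d)
  cx2 : ContinuousOn x2 (stripSet d)
  cy1 : ContinuousOn y1 (stripSet d)
  cy2 : ContinuousOn y2 (stripSet d)
  cx11 : ContinuousOn x11 (stripSet d)
  cx12 : ContinuousOn x12 (stripSet d)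
  cx22 : ContinuousOn x22 (stripSet d)
  cy11 : ContinuousOn y11 (stripSet d)
  cy12 : ContinuousOn y12 (stripSet d)
  cy22 : ContinuousOn y22 (stripSet d)
  reg : ∀ p ∈ stripSet d, 0 < x1 p ^ 2 + y1 p ^ 2
  px1 : ∀ h ∈ Ioo 0 d, x1 (1, h) = x1 (0, h)
  px2 : ∀ h ∈ Ioo 0 d, x2 (1, h) = x2 (0, h)
  py1 : ∀ h ∈ Ioo 0 d, y1 (1, h) = y1 (0, h)
  py2 : ∀ h ∈ Ioo 0 d, y2 (1, h) = y2 (0, h)

/-- Speed of the slice. -/
noncomputable def rho (x1 y1 : ℝ × ℝ → ℝ) (p : ℝ × ℝ) : ℝ := √(x1 p ^ 2 + y1 p ^ 2)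

/-- Outward normal velocity of the slices. -/
noncomputable def nv (x1 x2 y1 y2 : ℝ × ℝ → ℝ) (p : ℝ × ℝ) : ℝ :=
  (x2 p * y1 p - y2 p * x1 p) / rho x1 y1 p

/-- Tangential velocity of the slices. -/
noncomputable def tv (x1 x2 y1 y2 : ℝ × ℝ → ℝ) (p : ℝ × ℝ) : ℝ :=
  (x2 p * x1 p + y2 p * y1 p) / rho x1 y1 p

/-- Curvature density of the slices. -/
noncomputable def kd (x1 y1 x11 y11 : ℝ × ℝ → ℝ) (p : ℝ × ℝ) : ℝ :=
  (x1 p * y11 p - y1 p * x11 p) / (x1 p ^ 2 + y1 p ^ 2)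

/-- Mean curvature density (`-2 H` times the area density). -/
noncomputable def md (x1 x2 y1 y2 x11 x12 x22 y11 y12 y22 : ℝ × ℝ → ℝ) (p : ℝ × ℝ) : ℝ :=
  ((x1 p ^ 2 + y1 p ^ 2) * (y22 p * x1 p - x22 p * y1 p)
    + 2 * (x1 p * x2 p + y1 p * y2 p) * (x12 p * y1 p - y12 p * x1 p)
    + (x2 p ^ 2 + y2 p ^ 2 + 1) * (x1 p * y11 p - y1 p * x11 p))
  / (x1 p ^ 2 + y1 p ^ 2 + (x2 p * y1 p - y2 p * x1 p) ^ 2)

/-- A weight pair: `β' = -ψ / (1 + v²)` and `ψ - v β = c`. -/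
structure Weight (ψ β : ℝ → ℝ) (c : ℝ) : Prop where
  deriv : ∀ v, HasDerivAt β (- ψ v / (1 + v ^ 2)) v
  rel : ∀ v, ψ v - v * β v = c
  cont : Continuous ψ

lemma one_add_sq_pos (v : ℝ) : 0 < 1 + v ^ 2 := by positivity

/-- The main weight. -/
noncomputable def psi (v : ℝ) : ℝ := 1 - v * arsinh v / √(1 + v ^ 2)

/-- The main boundary function. -/
noncomputable def beta (v : ℝ) : ℝ := - (arsinh v / √(1 + v ^ 2))

lemma hasDerivAt_sqrt_one_add_sq (v : ℝ) :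
    HasDerivAt (fun v : ℝ => √(1 + v ^ 2)) (v / √(1 + v ^ 2)) v := by
  have h1 : HasDerivAt (fun v : ℝ => 1 + v ^ 2) (2 * v) v := by
    simpa using (hasDerivAt_pow 2 v).const_add 1
  have h2 := h1.sqrt (one_add_sq_pos v).ne'
  refine h2.congr_deriv ?_
  field_simp

lemma weight_main : Weight psi beta 1 where
  deriv v := by
    have hs : 0 < √(1 + v ^ 2) := Real.sqrt_pos.2 (one_add_sq_pos v)
    have hs2 : √(1 + v ^ 2) ^ 2 = 1 + v ^ 2 := Real.sq_sqrt (one_add_sq_pos v).le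
    have h := ((hasDerivAt_arsinh v).div (hasDerivAt_sqrt_one_add_sq v) hs.ne').neg
    refine h.congr_deriv ?_
    unfold psi
    have h3 := (one_add_sq_pos v).ne'
    rw [hs2]
    field_simp
  rel v := by
    unfold psi beta
    ring
  cont := by
    unfold psi
    refine continuous_const.sub ((continuous_id.mul continuous_arsinh).div ?_ ?_)
    · exact (continuous_const.add (continuous_pow 2)).sqrt
    · intro v
      exact (Real.sqrt_pos.2 (one_add_sq_pos v)).ne'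

lemma weight_force : Weight (fun v => - (v / √(1 + v ^ 2))) (fun v => - (1 / √(1 + v ^ 2))) 0 where
  deriv v := by
    have hs : 0 < √(1 + v ^ 2) := Real.sqrt_pos.2 (one_add_sq_pos v)
    have hs2 : √(1 + v ^ 2) ^ 2 = 1 + v ^ 2 := Real.sq_sqrt (one_add_sq_pos v).le
    have h := ((hasDerivAt_const v (1 : ℝ)).div (hasDerivAt_sqrt_one_add_sq v) hs.ne').neg
    refine h.congr_deriv ?_
    have h3 := (one_add_sq_pos v).ne'
    rw [hs2]
    field_simp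
    ring
  rel v := by ring
  cont := by
    refine (continuous_id.div ?_ ?_).neg
    · exact (continuous_const.add (continuous_pow 2)).sqrt
    · intro v
      exact (Real.sqrt_pos.2 (one_add_sq_pos v)).ne'

section

variable {x1 x2 y1 y2 x11 x12 x22 y11 y12 y22 : ℝ × ℝ → ℝ} {d : ℝ}

/-- t-derivative of `rho`. -/
noncomputable def rhoT (x1 y1 x11 y11 : ℝ × ℝ → ℝ) (p : ℝ × ℝ) : ℝ :=
  (x1 p * x11 p + y1 p * y11 p) / rho x1 y1 p

/-- derivative of `nv` given derivatives of the ingredients. -/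
noncomputable def nvD (x1 x2 y1 y2 x1' x2' y1' y2' : ℝ × ℝ → ℝ) (p : ℝ × ℝ) : ℝ :=
  (x2' p * y1 p + x2 p * y1' p - y2' p * x1 p - y2 p * x1' p) / rho x1 y1 p
    - (x2 p * y1 p - y2 p * x1 p) * (x1 p * x1' p + y1 p * y1' p) / rho x1 y1 p ^ 3

/-- derivative of `tv` given derivatives of the ingredients. -/
noncomputable def tvD (x1 x2 y1 y2 x1' x2' y1' y2' : ℝ × ℝ → ℝ) (p : ℝ × ℝ) : ℝ :=
  (x2' p * x1 p + x2 p * x1' p + y2' p * y1 p + y2 p * y1' p) / rho x1 y1 p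
    - (x2 p * x1 p + y2 p * y1 p) * (x1 p * x1' p + y1 p * y1' p) / rho x1 y1 p ^ 3

lemma deriv_rho_aux {u v : ℝ → ℝ} {u' v' s : ℝ} (hu : HasDerivAt u u' s) (hv : HasDerivAt v v' s)
    (h : 0 < u s ^ 2 + v s ^ 2) :
    HasDerivAt (fun s => √(u s ^ 2 + v s ^ 2)) ((u s * u' + v s * v') / √(u s ^ 2 + v s ^ 2)) s := by
  have h1 : HasDerivAt (fun s => u s ^ 2 + v s ^ 2) (2 * u s * u' + 2 * v s * v') s := by
    have := (hu.fun_pow 2).fun_add (hv.fun_pow 2)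
    simpa using this
  refine (h1.sqrt h.ne').congr_deriv ?_
  have := (Real.sqrt_pos.2 h).ne'
  field_simp

lemma deriv_nv_aux {u v a b : ℝ → ℝ} {u' v' a' b' s : ℝ} (hu : HasDerivAt u u' s)
    (hv : HasDerivAt v v' s) (ha : HasDerivAt a a' s) (hb : HasDerivAt b b' s)
    (h : 0 < u s ^ 2 + v s ^ 2) :
    HasDerivAt (fun s => (a s * v s - b s * u s) / √(u s ^ 2 + v s ^ 2))
      ((a' * v s + a s * v' - b' * u s - b s * u') / √(u s ^ 2 + v s ^ 2)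
        - (a s * v s - b s * u s) * (u s * u' + v s * v') / √(u s ^ 2 + v s ^ 2) ^ 3) s := by
  have h1 := ((ha.mul hv).sub (hb.mul hu)).div (deriv_rho_aux hu hv h) (Real.sqrt_pos.2 h).ne'
  refine h1.congr_deriv ?_
  have := (Real.sqrt_pos.2 h).ne'
  simp only [Pi.mul_apply, Pi.sub_apply]
  field_simp
  ring

lemma deriv_tv_aux {u v a b : ℝ → ℝ} {u' v' a' b' s : ℝ} (hu : HasDerivAt u u' s)
    (hv : HasDerivAt v v' s) (ha : HasDerivAt a a' s) (hb : HasDerivAt b b' s)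
    (h : 0 < u s ^ 2 + v s ^ 2) :
    HasDerivAt (fun s => (a s * u s + b s * v s) / √(u s ^ 2 + v s ^ 2))
      ((a' * u s + a s * u' + b' * v s + b s * v') / √(u s ^ 2 + v s ^ 2)
        - (a s * u s + b s * v s) * (u s * u' + v s * v') / √(u s ^ 2 + v s ^ 2) ^ 3) s := by
  have h1 := ((ha.mul hu).add (hb.mul hv)).div (deriv_rho_aux hu hv h) (Real.sqrt_pos.2 h).ne'
  refine h1.congr_deriv ?_
  have := (Real.sqrt_pos.2 h).ne'
  simp only [Pi.mul_apply, Pi.add_apply]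
  field_simp
  ring

/-- Pointwise algebraic identity, general weight. -/
lemma algebraic_identity {r x1 x2 y1 y2 x11 x12 x22 y11 y12 y22 ψ β c : ℝ}
    (hr : 0 < r) (hr2 : r ^ 2 = x1 ^ 2 + y1 ^ 2)
    (hrel : ψ - (x2 * y1 - y2 * x1) / r * β = c) :
    ψ * (((x1 ^ 2 + y1 ^ 2) * (y22 * x1 - x22 * y1)
        + 2 * (x1 * x2 + y1 * y2) * (x12 * y1 - y12 * x1)
        + (x2 ^ 2 + y2 ^ 2 + 1) * (x1 * y11 - y1 * x11))
        / (x1 ^ 2 + y1 ^ 2 + (x2 * y1 - y2 * x1) ^ 2))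
      = c * ((x1 * y11 - y1 * x11) / (x1 ^ 2 + y1 ^ 2))
        + ((- ψ / (1 + ((x2 * y1 - y2 * x1) / r) ^ 2)
            * ((x22 * y1 + x2 * y12 - y22 * x1 - y2 * x12) / r
              - (x2 * y1 - y2 * x1) * (x1 * x12 + y1 * y12) / r ^ 3)) * r
            + β * ((x1 * x12 + y1 * y12) / r))
        - ((- ψ / (1 + ((x2 * y1 - y2 * x1) / r) ^ 2)
            * ((x12 * y1 + x2 * y11 - y12 * x1 - y2 * x11) / r
              - (x2 * y1 - y2 * x1) * (x1 * x11 + y1 * y11) / r ^ 3))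
              * ((x2 * x1 + y2 * y1) / r)
            + β * ((x12 * x1 + x2 * x11 + y12 * y1 + y2 * y11) / r
              - (x2 * x1 + y2 * y1) * (x1 * x11 + y1 * y11) / r ^ 3)) := by
  subst hrel
  rw [← hr2]
  have hden : 0 < r ^ 2 + (x2 * y1 - y2 * x1) ^ 2 := by positivity
  have hden2 : 1 + ((x2 * y1 - y2 * x1) / r) ^ 2 = (r ^ 2 + (x2 * y1 - y2 * x1) ^ 2) / r ^ 2 := by
    field_simp
  rw [hden2]
  -- separate the `β` part and the `ψ` part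
  have hβ : (x1 * x12 + y1 * y12) / r - ((x12 * x1 + x2 * x11 + y12 * y1 + y2 * y11) / r
              - (x2 * x1 + y2 * y1) * (x1 * x11 + y1 * y11) / r ^ 3)
      = (x2 * y1 - y2 * x1) / r * ((x1 * y11 - y1 * x11) / r ^ 2) := by
    field_simp
    rw [hr2]
    ring
  have hψ : (r ^ 2 * (y22 * x1 - x22 * y1)
        + 2 * (x1 * x2 + y1 * y2) * (x12 * y1 - y12 * x1)
        + (x2 ^ 2 + y2 ^ 2 + 1) * (x1 * y11 - y1 * x11))
        / (r ^ 2 + (x2 * y1 - y2 * x1) ^ 2)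
      = (x1 * y11 - y1 * x11) / r ^ 2
        + (- 1 / ((r ^ 2 + (x2 * y1 - y2 * x1) ^ 2) / r ^ 2)
            * ((x22 * y1 + x2 * y12 - y22 * x1 - y2 * x12) / r
              - (x2 * y1 - y2 * x1) * (x1 * x12 + y1 * y12) / r ^ 3)) * r
        - (- 1 / ((r ^ 2 + (x2 * y1 - y2 * x1) ^ 2) / r ^ 2)
            * ((x12 * y1 + x2 * y11 - y12 * x1 - y2 * x11) / r
              - (x2 * y1 - y2 * x1) * (x1 * x11 + y1 * y11) / r ^ 3))
              * ((x2 * x1 + y2 * y1) / r) := by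
    field_simp
    rw [hr2]
    ring
  rw [hψ]
  linear_combination (-β) * hβ


lemma mem_strip {d t h : ℝ} : (t, h) ∈ stripSet d ↔ h ∈ Ioo 0 d := by
  simp [stripSet]

/-- h-derivative of `β(V) ρ`. -/
noncomputable def bh (ψ β : ℝ → ℝ) (x1 x2 y1 y2 x12 x22 y12 y22 : ℝ × ℝ → ℝ) (p : ℝ × ℝ) : ℝ :=
  - ψ (nv x1 x2 y1 y2 p) / (1 + nv x1 x2 y1 y2 p ^ 2) * nvD x1 x2 y1 y2 x12 x22 y12 y22 p
      * rho x1 y1 p
    + β (nv x1 x2 y1 y2 p) * rhoT x1 y1 x12 y12 p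

/-- t-derivative of `β(V) a`. -/
noncomputable def bt (ψ β : ℝ → ℝ) (x1 x2 y1 y2 x11 x12 y11 y12 : ℝ × ℝ → ℝ) (p : ℝ × ℝ) : ℝ :=
  - ψ (nv x1 x2 y1 y2 p) / (1 + nv x1 x2 y1 y2 p ^ 2) * nvD x1 x2 y1 y2 x11 x12 y11 y12 p
      * tv x1 x2 y1 y2 p
    + β (nv x1 x2 y1 y2 p) * tvD x1 x2 y1 y2 x11 x12 y11 y12 p

namespace Strip

variable (S : Strip x1 x2 y1 y2 x11 x12 x22 y11 y12 y22 d)
include S

lemma rho_pos {p : ℝ × ℝ} (hp : p ∈ stripSet d) : 0 < rho x1 y1 p := Real.sqrt_pos.2 (S.reg p hp)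

lemma rho_sq {p : ℝ × ℝ} (hp : p ∈ stripSet d) : rho x1 y1 p ^ 2 = x1 p ^ 2 + y1 p ^ 2 :=
  Real.sq_sqrt (S.reg p hp).le

lemma deriv_bh {ψ β : ℝ → ℝ} {c : ℝ} (W : Weight ψ β c) (t : ℝ) {h : ℝ} (hh : h ∈ Ioo 0 d) :
    HasDerivAt (fun k => β (nv x1 x2 y1 y2 (t, k)) * rho x1 y1 (t, k))
      (bh ψ β x1 x2 y1 y2 x12 x22 y12 y22 (t, h)) h := by
  have hreg := S.reg (t, h) (mem_strip.2 hh)
  have e1 : HasDerivAt (fun k => nv x1 x2 y1 y2 (t, k))
      (nvD x1 x2 y1 y2 x12 x22 y12 y22 (t, h)) h :=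
    deriv_nv_aux (S.hx1h t h hh) (S.hy1h t h hh) (S.hx2h t h hh) (S.hy2h t h hh) hreg
  have e2 : HasDerivAt (fun k => rho x1 y1 (t, k)) (rhoT x1 y1 x12 y12 (t, h)) h :=
    deriv_rho_aux (S.hx1h t h hh) (S.hy1h t h hh) hreg
  exact ((W.deriv _).comp h e1).mul e2

lemma deriv_bt {ψ β : ℝ → ℝ} {c : ℝ} (W : Weight ψ β c) (t : ℝ) {h : ℝ} (hh : h ∈ Ioo 0 d) :
    HasDerivAt (fun s => β (nv x1 x2 y1 y2 (s, h)) * tv x1 x2 y1 y2 (s, h))
      (bt ψ β x1 x2 y1 y2 x11 x12 y11 y12 (t, h)) t := by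
  have hreg := S.reg (t, h) (mem_strip.2 hh)
  have e1 : HasDerivAt (fun s => nv x1 x2 y1 y2 (s, h))
      (nvD x1 x2 y1 y2 x11 x12 y11 y12 (t, h)) t :=
    deriv_nv_aux (u := fun s => x1 (s, h)) (v := fun s => y1 (s, h)) (a := fun s => x2 (s, h))
      (b := fun s => y2 (s, h))
      (S.hx1t t h hh) (S.hy1t t h hh) (S.hx2t t h hh) (S.hy2t t h hh) hreg
  have e2 : HasDerivAt (fun s => tv x1 x2 y1 y2 (s, h)) (tvD x1 x2 y1 y2 x11 x12 y11 y12 (t, h)) t :=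
    deriv_tv_aux (u := fun s => x1 (s, h)) (v := fun s => y1 (s, h)) (a := fun s => x2 (s, h))
      (b := fun s => y2 (s, h))
      (S.hx1t t h hh) (S.hy1t t h hh) (S.hx2t t h hh) (S.hy2t t h hh) hreg
  exact ((W.deriv _).comp t e1).mul e2

lemma identity {ψ β : ℝ → ℝ} {c : ℝ} (W : Weight ψ β c) {p : ℝ × ℝ} (hp : p ∈ stripSet d) :
    ψ (nv x1 x2 y1 y2 p) * md x1 x2 y1 y2 x11 x12 x22 y11 y12 y22 p
      = c * kd x1 y1 x11 y11 p + bh ψ β x1 x2 y1 y2 x12 x22 y12 y22 p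
        - bt ψ β x1 x2 y1 y2 x11 x12 y11 y12 p :=
  algebraic_identity (S.rho_pos hp) (S.rho_sq hp) (W.rel (nv x1 x2 y1 y2 p))

lemma cont_rho : ContinuousOn (rho x1 y1) (stripSet d) :=
  ((S.cx1.pow 2).add (S.cy1.pow 2)).sqrt

lemma cont_nv : ContinuousOn (nv x1 x2 y1 y2) (stripSet d) :=
  ((S.cx2.mul S.cy1).sub (S.cy2.mul S.cx1)).div S.cont_rho (fun _ hp => (S.rho_pos hp).ne')

lemma cont_tv : ContinuousOn (tv x1 x2 y1 y2) (stripSet d) :=
  ((S.cx2.mul S.cx1).add (S.cy2.mul S.cy1)).div S.cont_rho (fun _ hp => (S.rho_pos hp).ne')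

lemma cont_kd : ContinuousOn (kd x1 y1 x11 y11) (stripSet d) :=
  ((S.cx1.mul S.cy11).sub (S.cy1.mul S.cx11)).div ((S.cx1.pow 2).add (S.cy1.pow 2))
    (fun p hp => (S.reg p hp).ne')

lemma cont_md : ContinuousOn (md x1 x2 y1 y2 x11 x12 x22 y11 y12 y22) (stripSet d) := by
  unfold md
  refine ContinuousOn.div ?_ ?_ ?_
  · refine ((((S.cx1.pow 2).add (S.cy1.pow 2)).mul ((S.cy22.mul S.cx1).sub (S.cx22.mul S.cy1))).add
      ((continuousOn_const.mul ((S.cx1.mul S.cx2).add (S.cy1.mul S.cy2))).mul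
        ((S.cx12.mul S.cy1).sub (S.cy12.mul S.cx1)))).add
      ((((S.cx2.pow 2).add (S.cy2.pow 2)).add continuousOn_const).mul
        ((S.cx1.mul S.cy11).sub (S.cy1.mul S.cx11)))
  · exact ((S.cx1.pow 2).add (S.cy1.pow 2)).add (((S.cx2.mul S.cy1).sub (S.cy2.mul S.cx1)).pow 2)
  · intro p hp
    have := S.reg p hp
    positivity

lemma cont_nvD {x1' x2' y1' y2' : ℝ × ℝ → ℝ} (h1 : ContinuousOn x1' (stripSet d))
    (h2 : ContinuousOn x2' (stripSet d)) (h3 : ContinuousOn y1' (stripSet d))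
    (h4 : ContinuousOn y2' (stripSet d)) :
    ContinuousOn (nvD x1 x2 y1 y2 x1' x2' y1' y2') (stripSet d) := by
  unfold nvD
  refine ContinuousOn.sub ?_ ?_
  · exact ((((h2.mul S.cy1).add (S.cx2.mul h3)).sub (h4.mul S.cx1)).sub (S.cy2.mul h1)).div
      S.cont_rho (fun _ hp => (S.rho_pos hp).ne')
  · exact (((S.cx2.mul S.cy1).sub (S.cy2.mul S.cx1)).mul ((S.cx1.mul h1).add (S.cy1.mul h3))).div
      (S.cont_rho.pow 3) (fun _ hp => (pow_pos (S.rho_pos hp) 3).ne')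

lemma cont_tvD {x1' x2' y1' y2' : ℝ × ℝ → ℝ} (h1 : ContinuousOn x1' (stripSet d))
    (h2 : ContinuousOn x2' (stripSet d)) (h3 : ContinuousOn y1' (stripSet d))
    (h4 : ContinuousOn y2' (stripSet d)) :
    ContinuousOn (tvD x1 x2 y1 y2 x1' x2' y1' y2') (stripSet d) := by
  unfold tvD
  refine ContinuousOn.sub ?_ ?_
  · exact ((((h2.mul S.cx1).add (S.cx2.mul h1)).add (h4.mul S.cy1)).add (S.cy2.mul h3)).div
      S.cont_rho (fun _ hp => (S.rho_pos hp).ne')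
  · exact (((S.cx2.mul S.cx1).add (S.cy2.mul S.cy1)).mul ((S.cx1.mul h1).add (S.cy1.mul h3))).div
      (S.cont_rho.pow 3) (fun _ hp => (pow_pos (S.rho_pos hp) 3).ne')

lemma cont_bh {ψ β : ℝ → ℝ} {c : ℝ} (W : Weight ψ β c) :
    ContinuousOn (bh ψ β x1 x2 y1 y2 x12 x22 y12 y22) (stripSet d) := by
  have hβ : Continuous β := continuous_iff_continuousAt.2 fun v => (W.deriv v).continuousAt
  unfold bh
  refine ContinuousOn.add ?_ ?_
  · refine ((ContinuousOn.div (W.cont.comp_continuousOn S.cont_nv).neg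
      (continuousOn_const.add (S.cont_nv.pow 2)) ?_).mul
      (S.cont_nvD S.cx12 S.cx22 S.cy12 S.cy22)).mul S.cont_rho
    intro p _
    exact (one_add_sq_pos _).ne'
  · refine (hβ.comp_continuousOn S.cont_nv).mul ?_
    exact ((S.cx1.mul S.cx12).add (S.cy1.mul S.cy12)).div
      S.cont_rho (fun _ hp => (S.rho_pos hp).ne')

lemma cont_bt {ψ β : ℝ → ℝ} {c : ℝ} (W : Weight ψ β c) :
    ContinuousOn (bt ψ β x1 x2 y1 y2 x11 x12 y11 y12) (stripSet d) := by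
  have hβ : Continuous β := continuous_iff_continuousAt.2 fun v => (W.deriv v).continuousAt
  unfold bt
  refine ContinuousOn.add ?_ ?_
  · refine ((ContinuousOn.div (W.cont.comp_continuousOn S.cont_nv).neg
      (continuousOn_const.add (S.cont_nv.pow 2)) ?_).mul
      (S.cont_nvD S.cx11 S.cx12 S.cy11 S.cy12)).mul S.cont_tv
    intro p _
    exact (one_add_sq_pos _).ne'
  · refine (hβ.comp_continuousOn S.cont_nv).mul ?_
    exact S.cont_tvD S.cx11 S.cx12 S.cy11 S.cy12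

end Strip

section calculus

variable {g : ℝ × ℝ → ℝ} {h h1 h2 : ℝ}

lemma cont_slice_t (hg : ContinuousOn g (stripSet d)) (hh : h ∈ Ioo 0 d) :
    Continuous fun t => g (t, h) := by
  rw [continuous_iff_continuousAt]
  intro t
  have h1 : stripSet d ∈ 𝓝 (t, h) :=
    (isOpen_univ.prod isOpen_Ioo).mem_nhds (mem_strip.2 hh)
  have h2 := hg.continuousAt h1
  exact ContinuousAt.comp (f := fun t => (t, h)) h2 (by fun_prop)

lemma cont_slice_h (hg : ContinuousOn g (stripSet d)) (t : ℝ) :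
    ContinuousOn (fun h => g (t, h)) (Ioo 0 d) := by
  refine hg.comp (by fun_prop) ?_
  intro h hh
  exact mem_strip.2 hh

lemma integrableOn_rect (hg : ContinuousOn g (stripSet d)) (h0 : 0 < h1)
    (h2d : h2 < d) : IntegrableOn g (Icc 0 1 ×ˢ Icc h1 h2) := by
  refine ContinuousOn.integrableOn_compact (isCompact_Icc.prod isCompact_Icc) (hg.mono ?_)
  rintro ⟨t, h⟩ ⟨_, hh⟩
  exact mem_strip.2 ⟨lt_of_lt_of_le h0 hh.1, lt_of_le_of_lt hh.2 h2d⟩

lemma swap_rect (hg : ContinuousOn g (stripSet d)) (h0 : 0 < h1) (h12 : h1 ≤ h2)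
    (h2d : h2 < d) :
    ∫ t in (0:ℝ)..1, ∫ h in h1..h2, g (t, h) = ∫ h in h1..h2, ∫ t in (0:ℝ)..1, g (t, h) := by
  apply intervalIntegral_intervalIntegral_swap
  have h3 := integrableOn_rect hg h0 h2d
  refine h3.mono_set ?_
  rw [uIoc_of_le zero_le_one, uIoc_of_le h12]
  exact prod_mono Ioc_subset_Icc_self Ioc_subset_Icc_self

/-- Continuity of the partial integral. -/
lemma cont_partial (hg : ContinuousOn g (stripSet d)) :
    ContinuousOn (fun h => ∫ t in (0:ℝ)..1, g (t, h)) (Ioo 0 d) := by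
  intro h hh
  refine ContinuousAt.continuousWithinAt ?_
  -- choose a compact neighbourhood
  obtain ⟨a, ha0, hah⟩ : ∃ a, 0 < a ∧ a < h := exists_between hh.1
  obtain ⟨b, hhb, hbd⟩ : ∃ b, h < b ∧ b < d := exists_between hh.2
  have hcpt : IsCompact (Icc (0:ℝ) 1 ×ˢ Icc a b) := isCompact_Icc.prod isCompact_Icc
  have hsub : Icc (0:ℝ) 1 ×ˢ Icc a b ⊆ stripSet d := by
    rintro ⟨t, k⟩ ⟨_, hk⟩
    exact mem_strip.2 ⟨lt_of_lt_of_le ha0 hk.1, lt_of_le_of_lt hk.2 hbd⟩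
  obtain ⟨C, hC⟩ := hcpt.exists_bound_of_continuousOn (hg.mono hsub)
  have hnb : Icc a b ∈ 𝓝 h := Icc_mem_nhds hah hhb
  apply intervalIntegral.continuousAt_of_dominated_interval (bound := fun _ => C)
  · filter_upwards [hnb] with k hk
    have hk' : k ∈ Ioo 0 d := ⟨lt_of_lt_of_le ha0 hk.1, lt_of_le_of_lt hk.2 hbd⟩
    exact (cont_slice_t hg hk').aestronglyMeasurable
  · filter_upwards [hnb] with k hk
    refine Filter.Eventually.of_forall ?_
    intro t ht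
    rw [uIoc_of_le zero_le_one] at ht
    exact hC (t, k) ⟨Ioc_subset_Icc_self ht, hk⟩
  · exact intervalIntegrable_const
  · refine Filter.Eventually.of_forall ?_
    intro t _
    exact (cont_slice_h hg t).continuousAt (Ioo_mem_nhds hh.1 hh.2)

lemma intervalIntegrable_partial (hg : ContinuousOn g (stripSet d)) (h0 : 0 < h1) (h12 : h1 ≤ h2)
    (h2d : h2 < d) : IntervalIntegrable (fun h => ∫ t in (0:ℝ)..1, g (t, h)) volume h1 h2 := by
  refine ContinuousOn.intervalIntegrable ((cont_partial hg).mono ?_)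
  rw [uIcc_of_le h12]
  intro k hk
  exact ⟨lt_of_lt_of_le h0 hk.1, lt_of_le_of_lt hk.2 h2d⟩

end calculus

/-- The integral identity for a weight. -/
theorem Strip.integral_identity (S : Strip x1 x2 y1 y2 x11 x12 x22 y11 y12 y22 d)
    {ψ β : ℝ → ℝ} {c : ℝ} (W : Weight ψ β c) {h1 h2 : ℝ} (h0 : 0 < h1) (h12 : h1 ≤ h2)
    (h2d : h2 < d) :
    ∫ h in h1..h2, ∫ t in (0:ℝ)..1,
        ψ (nv x1 x2 y1 y2 (t, h)) * md x1 x2 y1 y2 x11 x12 x22 y11 y12 y22 (t, h)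
      = c * (∫ h in h1..h2, ∫ t in (0:ℝ)..1, kd x1 y1 x11 y11 (t, h))
        + (∫ t in (0:ℝ)..1, β (nv x1 x2 y1 y2 (t, h2)) * rho x1 y1 (t, h2))
        - ∫ t in (0:ℝ)..1, β (nv x1 x2 y1 y2 (t, h1)) * rho x1 y1 (t, h1) := by
  have hmem : ∀ h ∈ Icc h1 h2, h ∈ Ioo 0 d := fun h hh =>
    ⟨lt_of_lt_of_le h0 hh.1, lt_of_le_of_lt hh.2 h2d⟩
  have hβ : Continuous β := continuous_iff_continuousAt.2 fun v => (W.deriv v).continuousAt
  -- pointwise in `h`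
  have step1 : ∀ h ∈ Icc h1 h2, ∫ t in (0:ℝ)..1,
        ψ (nv x1 x2 y1 y2 (t, h)) * md x1 x2 y1 y2 x11 x12 x22 y11 y12 y22 (t, h)
      = c * (∫ t in (0:ℝ)..1, kd x1 y1 x11 y11 (t, h))
        + ∫ t in (0:ℝ)..1, bh ψ β x1 x2 y1 y2 x12 x22 y12 y22 (t, h) := by
    intro h hh
    have hh' := hmem h hh
    have hbt : ∫ t in (0:ℝ)..1, bt ψ β x1 x2 y1 y2 x11 x12 y11 y12 (t, h) = 0 := by
      rw [intervalIntegral.integral_eq_sub_of_hasDerivAt (fun t _ => S.deriv_bt W t hh')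
        ((cont_slice_t (S.cont_bt W) hh').intervalIntegrable _ _)]
      simp only [nv, tv, rho, S.px1 h hh', S.px2 h hh', S.py1 h hh', S.py2 h hh', sub_self]
    have e : ∀ t, ψ (nv x1 x2 y1 y2 (t, h)) * md x1 x2 y1 y2 x11 x12 x22 y11 y12 y22 (t, h)
        = c * kd x1 y1 x11 y11 (t, h) + bh ψ β x1 x2 y1 y2 x12 x22 y12 y22 (t, h)
          - bt ψ β x1 x2 y1 y2 x11 x12 y11 y12 (t, h) := fun t => S.identity W (mem_strip.2 hh')
    simp_rw [e]
    have i1 := (cont_slice_t S.cont_kd hh').intervalIntegrable 0 1 (μ := volume)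
    have i2 := (cont_slice_t (S.cont_bh W) hh').intervalIntegrable 0 1 (μ := volume)
    have i3 := (cont_slice_t (S.cont_bt W) hh').intervalIntegrable 0 1 (μ := volume)
    rw [intervalIntegral.integral_sub ((i1.const_mul c).add i2) i3,
      intervalIntegral.integral_add (i1.const_mul c) i2, hbt, sub_zero,
      intervalIntegral.integral_const_mul]
  have step2 : ∫ h in h1..h2, ∫ t in (0:ℝ)..1,
        ψ (nv x1 x2 y1 y2 (t, h)) * md x1 x2 y1 y2 x11 x12 x22 y11 y12 y22 (t, h)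
      = ∫ h in h1..h2, (c * (∫ t in (0:ℝ)..1, kd x1 y1 x11 y11 (t, h))
        + ∫ t in (0:ℝ)..1, bh ψ β x1 x2 y1 y2 x12 x22 y12 y22 (t, h)) := by
    apply intervalIntegral.integral_congr
    intro h hh
    rw [uIcc_of_le h12] at hh
    exact step1 h hh
  rw [step2, intervalIntegral.integral_add
    ((intervalIntegrable_partial S.cont_kd h0 h12 h2d).const_mul c)
    (intervalIntegrable_partial (S.cont_bh W) h0 h12 h2d), intervalIntegral.integral_const_mul,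
    ← swap_rect (S.cont_bh W) h0 h12 h2d]
  have step3 : ∀ t, ∫ h in h1..h2, bh ψ β x1 x2 y1 y2 x12 x22 y12 y22 (t, h)
      = β (nv x1 x2 y1 y2 (t, h2)) * rho x1 y1 (t, h2)
        - β (nv x1 x2 y1 y2 (t, h1)) * rho x1 y1 (t, h1) := by
    intro t
    rw [intervalIntegral.integral_eq_sub_of_hasDerivAt]
    · intro k hk
      rw [uIcc_of_le h12] at hk
      exact S.deriv_bh W t (hmem k hk)
    · refine ContinuousOn.intervalIntegrable ((cont_slice_h (S.cont_bh W) t).mono ?_)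
      rw [uIcc_of_le h12]
      exact hmem
  simp_rw [step3]
  have hc2 : Continuous fun t => β (nv x1 x2 y1 y2 (t, h2)) * rho x1 y1 (t, h2) :=
    (hβ.comp (cont_slice_t S.cont_nv (hmem h2 ⟨h12, le_rfl⟩))).mul
      (cont_slice_t S.cont_rho (hmem h2 ⟨h12, le_rfl⟩))
  have hc1 : Continuous fun t => β (nv x1 x2 y1 y2 (t, h1)) * rho x1 y1 (t, h1) :=
    (hβ.comp (cont_slice_t S.cont_nv (hmem h1 ⟨le_rfl, h12⟩))).mul
      (cont_slice_t S.cont_rho (hmem h1 ⟨le_rfl, h12⟩))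
  rw [intervalIntegral.integral_sub (hc2.intervalIntegrable _ _) (hc1.intervalIntegrable _ _)]
  ring

end

end Pool.Agent.Lib.MP_bea121_gt
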