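import Pool.Agent.Lib.MP_bea121_gt.SliceIdentity

/-!
# The lower bound for surfaces sliced by closed curves
-/

open Real MeasureTheory Set Filter Topology

namespace Pool.Agent.Lib.MP_bea121_gt

lemma abs_arsinh_le (v : ℝ) : |arsinh v| ≤ |v| := by
  rcases le_total 0 v with h | h
  · rw [abs_of_nonneg h, abs_of_nonneg (arsinh_nonneg_iff.2 h)]
    have := Real.self_le_sinh_iff.2 (arsinh_nonneg_iff.2 h)
    rwa [sinh_arsinh] at this
  · rw [abs_of_nonpos h, abs_of_nonpos (arsinh_nonpos_iff.2 h)]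
    have := Real.sinh_le_self_iff.2 (arsinh_nonpos_iff.2 h)
    rw [sinh_arsinh] at this
    linarith

lemma abs_beta_le (v : ℝ) : |beta v| ≤ 1 := by
  have hs : 0 < √(1 + v ^ 2) := Real.sqrt_pos.2 (one_add_sq_pos v)
  unfold beta
  rw [abs_neg, abs_div, abs_of_pos hs, div_le_one hs]
  refine (abs_arsinh_le v).trans ?_
  apply Real.abs_le_sqrt
  linarith [sq_nonneg v]

lemma mul_arsinh_nonneg (v : ℝ) : 0 ≤ v * arsinh v := by
  rcases le_total 0 v with h | h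
  · exact mul_nonneg h (arsinh_nonneg_iff.2 h)
  · exact mul_nonneg_of_nonpos_of_nonpos h (arsinh_nonpos_iff.2 h)

lemma psi_le_one (v : ℝ) : psi v ≤ 1 := by
  unfold psi
  have := div_nonneg (mul_arsinh_nonneg v) (Real.sqrt_nonneg (1 + v ^ 2))
  linarith

lemma psi_eq_one {v : ℝ} (h : psi v = 1) : v = 0 := by
  unfold psi at h
  have hs : 0 < √(1 + v ^ 2) := Real.sqrt_pos.2 (one_add_sq_pos v)
  have h1 : v * arsinh v / √(1 + v ^ 2) = 0 := by linarith
  rcases div_eq_zero_iff.1 h1 with h2 | h2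
  · rcases mul_eq_zero.1 h2 with h3 | h3
    · exact h3
    · exact arsinh_eq_zero_iff.1 h3
  · exact absurd h2 hs.ne'

variable {x1 x2 y1 y2 x11 x12 x22 y11 y12 y22 : ℝ × ℝ → ℝ} {d : ℝ}

/-- Length of a slice. -/
noncomputable def len (x1 y1 : ℝ × ℝ → ℝ) (h : ℝ) : ℝ := ∫ t in (0:ℝ)..1, rho x1 y1 (t, h)

lemma Strip.boundary_le (S : Strip x1 x2 y1 y2 x11 x12 x22 y11 y12 y22 d) {h : ℝ}
    (hh : h ∈ Ioo 0 d) :
    |∫ t in (0:ℝ)..1, beta (nv x1 x2 y1 y2 (t, h)) * rho x1 y1 (t, h)| ≤ len x1 y1 h := by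
  have hβ : Continuous beta :=
    continuous_iff_continuousAt.2 fun v => (weight_main.deriv v).continuousAt
  refine (intervalIntegral.abs_integral_le_integral_abs zero_le_one).trans ?_
  refine intervalIntegral.integral_mono_on zero_le_one ?_ ?_ ?_
  · exact ((hβ.comp (cont_slice_t S.cont_nv hh)).mul
      (cont_slice_t S.cont_rho hh)).abs.intervalIntegrable _ _
  · exact (cont_slice_t S.cont_rho hh).intervalIntegrable _ _
  · intro t _
    have hp := S.rho_pos (mem_strip.2 hh : (t, h) ∈ stripSet d)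
    rw [abs_mul, abs_of_pos hp]
    have := abs_beta_le (nv x1 x2 y1 y2 (t, h))
    nlinarith

/-- The nonnegative defect. -/
noncomputable def defect (x1 x2 y1 y2 x11 x12 x22 y11 y12 y22 : ℝ × ℝ → ℝ) (p : ℝ × ℝ) : ℝ :=
  |md x1 x2 y1 y2 x11 x12 x22 y11 y12 y22 p|
    - psi (nv x1 x2 y1 y2 p) * md x1 x2 y1 y2 x11 x12 x22 y11 y12 y22 p

lemma Strip.cont_defect (S : Strip x1 x2 y1 y2 x11 x12 x22 y11 y12 y22 d) :
    ContinuousOn (defect x1 x2 y1 y2 x11 x12 x22 y11 y12 y22) (stripSet d) :=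
  S.cont_md.abs.sub ((weight_main.cont.comp_continuousOn S.cont_nv).mul S.cont_md)

lemma defect_nonneg {p : ℝ × ℝ}
    (hc : -1 < psi (nv x1 x2 y1 y2 p) ∨ 0 ≤ md x1 x2 y1 y2 x11 x12 x22 y11 y12 y22 p) :
    0 ≤ defect x1 x2 y1 y2 x11 x12 x22 y11 y12 y22 p := by
  unfold defect
  set m := md x1 x2 y1 y2 x11 x12 x22 y11 y12 y22 p
  have h1 := psi_le_one (nv x1 x2 y1 y2 p)
  rcases le_total 0 m with hm | hm
  · rw [abs_of_nonneg hm]
    nlinarith
  · rw [abs_of_nonpos hm]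
    rcases hc with hc | hc
    · nlinarith
    · have : m = 0 := le_antisymm hm hc
      rw [this]
      simp

lemma mul_eq_zero_of_defect {p : ℝ × ℝ}
    (hc : -1 < psi (nv x1 x2 y1 y2 p) ∨ 0 ≤ md x1 x2 y1 y2 x11 x12 x22 y11 y12 y22 p)
    (h0 : defect x1 x2 y1 y2 x11 x12 x22 y11 y12 y22 p = 0) :
    nv x1 x2 y1 y2 p = 0 ∨ md x1 x2 y1 y2 x11 x12 x22 y11 y12 y22 p = 0 := by
  unfold defect at h0
  set m := md x1 x2 y1 y2 x11 x12 x22 y11 y12 y22 p
  by_cases hm0 : m = 0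
  · exact Or.inr hm0
  left
  rcases lt_or_gt_of_ne hm0 with hm | hm
  · rcases hc with hc | hc
    · rw [abs_of_neg hm] at h0
      have : (1 + psi (nv x1 x2 y1 y2 p)) * m < 0 :=
        mul_neg_of_pos_of_neg (by linarith) hm
      nlinarith
    · exact absurd hc (not_le.2 hm)
  · rw [abs_of_pos hm] at h0
    have h1 : (1 - psi (nv x1 x2 y1 y2 p)) * m = 0 := by linarith
    rcases mul_eq_zero.1 h1 with h2 | h2
    · exact psi_eq_one (by linarith)
    · exact absurd h2 hm0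

/-- The defect cannot vanish identically. -/
lemma Strip.exists_defect_pos (S : Strip x1 x2 y1 y2 x11 x12 x22 y11 y12 y22 d) (hd : 0 < d)
    (hlen0 : Tendsto (len x1 y1) (𝓝[>] 0) (𝓝 0))
    (hcond : ∀ p ∈ stripSet d, -1 < psi (nv x1 x2 y1 y2 p) ∨
      0 ≤ md x1 x2 y1 y2 x11 x12 x22 y11 y12 y22 p) :
    ∃ t ∈ Icc (0:ℝ) 1, ∃ h ∈ Ioo 0 d, 0 < defect x1 x2 y1 y2 x11 x12 x22 y11 y12 y22 (t, h) := by
  by_contra hcon
  push Not at hcon
  have hzero : ∀ t ∈ Icc (0:ℝ) 1, ∀ h ∈ Ioo 0 d,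
      nv x1 x2 y1 y2 (t, h) = 0 ∨ md x1 x2 y1 y2 x11 x12 x22 y11 y12 y22 (t, h) = 0 := by
    intro t ht h hh
    have hc := hcond (t, h) (mem_strip.2 hh)
    exact mul_eq_zero_of_defect hc (le_antisymm (hcon t ht h hh) (defect_nonneg hc))
  -- the vertical force
  let Φ : ℝ → ℝ := fun h => ∫ t in (0:ℝ)..1, 1 / √(1 + nv x1 x2 y1 y2 (t, h) ^ 2) * rho x1 y1 (t, h)
  have hcontΦ : ∀ h ∈ Ioo 0 d,
      Continuous fun t => 1 / √(1 + nv x1 x2 y1 y2 (t, h) ^ 2) * rho x1 y1 (t, h) := by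
    intro h hh
    refine (continuous_const.div ?_ ?_).mul (cont_slice_t S.cont_rho hh)
    · exact (continuous_const.add ((cont_slice_t S.cont_nv hh).pow 2)).sqrt
    · intro t
      exact (Real.sqrt_pos.2 (one_add_sq_pos _)).ne'
  have hconst : ∀ h1 h2, 0 < h1 → h1 ≤ h2 → h2 < d → Φ h2 = Φ h1 := by
    intro h1 h2 h0 h12 h2d
    have key := S.integral_identity weight_force h0 h12 h2d
    have hz : ∫ h in h1..h2, ∫ t in (0:ℝ)..1,
        (fun v => - (v / √(1 + v ^ 2))) (nv x1 x2 y1 y2 (t, h))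
          * md x1 x2 y1 y2 x11 x12 x22 y11 y12 y22 (t, h) = 0 := by
      have : ∀ h ∈ uIcc h1 h2, ∫ t in (0:ℝ)..1,
        (fun v => - (v / √(1 + v ^ 2))) (nv x1 x2 y1 y2 (t, h))
          * md x1 x2 y1 y2 x11 x12 x22 y11 y12 y22 (t, h) = 0 := by
        intro h hh
        rw [uIcc_of_le h12] at hh
        have hh' : h ∈ Ioo 0 d := ⟨lt_of_lt_of_le h0 hh.1, lt_of_le_of_lt hh.2 h2d⟩
        have : ∀ t ∈ uIcc (0:ℝ) 1, (fun v => - (v / √(1 + v ^ 2))) (nv x1 x2 y1 y2 (t, h))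
          * md x1 x2 y1 y2 x11 x12 x22 y11 y12 y22 (t, h) = 0 := by
          intro t ht
          rw [uIcc_of_le zero_le_one] at ht
          rcases hzero t ht h hh' with h3 | h3
          · simp [h3]
          · simp [h3]
        rw [intervalIntegral.integral_congr this]
        simp
      rw [intervalIntegral.integral_congr this]
      simp
    rw [hz] at key
    simp only [zero_mul, zero_add, neg_mul, intervalIntegral.integral_neg] at key
    simp only [Φ]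
    linarith
  have hΦle : ∀ h ∈ Ioo 0 d, Φ h ≤ len x1 y1 h := by
    intro h hh
    refine intervalIntegral.integral_mono_on zero_le_one ((hcontΦ h hh).intervalIntegrable _ _)
      ((cont_slice_t S.cont_rho hh).intervalIntegrable _ _) ?_
    intro t _
    have hp := S.rho_pos (mem_strip.2 hh : (t, h) ∈ stripSet d)
    have h1 : 1 ≤ √(1 + nv x1 x2 y1 y2 (t, h) ^ 2) := by
      rw [Real.one_le_sqrt]
      linarith [sq_nonneg (nv x1 x2 y1 y2 (t, h))]
    have h2 : 1 / √(1 + nv x1 x2 y1 y2 (t, h) ^ 2) ≤ 1 := by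
      rw [div_le_one (by linarith)]
      exact h1
    nlinarith
  have hhalf : d / 2 ∈ Ioo 0 d := ⟨by linarith, by linarith⟩
  have hΦpos : 0 < Φ (d / 2) := by
    apply intervalIntegral.intervalIntegral_pos_of_pos_on ((hcontΦ _ hhalf).intervalIntegrable _ _)
    · intro t _
      have hp := S.rho_pos (mem_strip.2 hhalf : (t, d / 2) ∈ stripSet d)
      exact mul_pos (div_pos one_pos (Real.sqrt_pos.2 (one_add_sq_pos _))) hp
    · exact zero_lt_one
  have hev : ∀ᶠ h in 𝓝[>] (0:ℝ), len x1 y1 h < Φ (d / 2) :=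
    hlen0.eventually (gt_mem_nhds hΦpos)
  have hev2 : ∀ᶠ h in 𝓝[>] (0:ℝ), h ∈ Ioo 0 (d / 2) := Ioo_mem_nhdsGT (by linarith)
  obtain ⟨h, hh1, hh2⟩ := (hev.and hev2).exists
  have h3 := hΦle h ⟨hh2.1, by linarith [hh2.2]⟩
  have h4 := hconst h (d / 2) hh2.1 hh2.2.le hhalf.2
  linarith

/-- Lower bound for the total absolute mean curvature density. -/
theorem Strip.lower_bound (S : Strip x1 x2 y1 y2 x11 x12 x22 y11 y12 y22 d) (hd : 0 < d)
    (hlen0 : Tendsto (len x1 y1) (𝓝[>] 0) (𝓝 0)) (hlend : Tendsto (len x1 y1) (𝓝[<] d) (𝓝 0))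
    (hK : ∀ h ∈ Ioo 0 d, 2 * π ≤ ∫ t in (0:ℝ)..1, kd x1 y1 x11 y11 (t, h))
    (hcond : ∀ p ∈ stripSet d, -1 < psi (nv x1 x2 y1 y2 p) ∨
      0 ≤ md x1 x2 y1 y2 x11 x12 x22 y11 y12 y22 p) :
    ∃ h1 h2, 0 < h1 ∧ h1 ≤ h2 ∧ h2 < d ∧
      2 * π * d < ∫ h in h1..h2, ∫ t in (0:ℝ)..1,
        |md x1 x2 y1 y2 x11 x12 x22 y11 y12 y22 (t, h)| := by
  obtain ⟨t0, ht0, h0, hh0, hpos⟩ := S.exists_defect_pos hd hlen0 hcond
  set g := defect x1 x2 y1 y2 x11 x12 x22 y11 y12 y22 with hg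
  have hgc := S.cont_defect
  rw [← hg] at hgc
  have hgn : ∀ p ∈ stripSet d, 0 ≤ g p := fun p hp => defect_nonneg (hcond p hp)
  obtain ⟨a, ha0, hah⟩ : ∃ a, 0 < a ∧ a < h0 := exists_between hh0.1
  obtain ⟨b, hhb, hbd⟩ : ∃ b, h0 < b ∧ b < d := exists_between hh0.2
  have hab : a < b := hah.trans hhb
  have hGn : ∀ h ∈ Ioo 0 d, 0 ≤ ∫ t in (0:ℝ)..1, g (t, h) := by
    intro h hh
    exact intervalIntegral.integral_nonneg zero_le_one fun t _ => hgn _ (mem_strip.2 hh)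
  have hε : 0 < ∫ h in a..b, ∫ t in (0:ℝ)..1, g (t, h) := by
    refine intervalIntegral.integral_pos hab ?_ ?_ ?_
    · refine (cont_partial hgc).mono ?_
      intro h hh
      exact ⟨lt_of_lt_of_le ha0 hh.1, lt_of_le_of_lt hh.2 hbd⟩
    · intro h hh
      exact hGn h ⟨lt_trans ha0 hh.1, lt_of_le_of_lt hh.2 hbd⟩
    · refine ⟨h0, ⟨hah.le, hhb.le⟩, ?_⟩
      refine intervalIntegral.integral_pos zero_lt_one ?_ ?_ ?_
      · exact (cont_slice_t hgc hh0).continuousOn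
      · intro t _
        exact hgn _ (mem_strip.2 hh0)
      · exact ⟨t0, ht0, hpos⟩
  set ε := ∫ h in a..b, ∫ t in (0:ℝ)..1, g (t, h) with hεdef
  have hpi := Real.pi_pos
  have ev1 : ∀ᶠ h in 𝓝[>] (0:ℝ), len x1 y1 h < ε / 8 :=
    hlen0.eventually (gt_mem_nhds (by linarith))
  have ev2 : ∀ᶠ h in 𝓝[>] (0:ℝ), h ∈ Ioo 0 (min a (ε / (32 * π))) :=
    Ioo_mem_nhdsGT (lt_min ha0 (by positivity))
  have ev3 : ∀ᶠ h in 𝓝[<] d, len x1 y1 h < ε / 8 :=
    hlend.eventually (gt_mem_nhds (by linarith))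
  have ev4 : ∀ᶠ h in 𝓝[<] d, h ∈ Ioo (max b (d - ε / (32 * π))) d :=
    Ioo_mem_nhdsLT (max_lt hbd (by linarith [show 0 < ε / (32 * π) by positivity]))
  obtain ⟨h1, hl1, hm1⟩ := (ev1.and ev2).exists
  obtain ⟨h2, hl2, hm2⟩ := (ev3.and ev4).exists
  have h1a : h1 < a := hm1.2.trans_le (min_le_left _ _)
  have h1e : h1 < ε / (32 * π) := hm1.2.trans_le (min_le_right _ _)
  have h2b : b < h2 := (le_max_left _ _).trans_lt hm2.1
  have h2e : d - ε / (32 * π) < h2 := (le_max_right _ _).trans_lt hm2.1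
  have h12 : h1 ≤ h2 := by linarith
  refine ⟨h1, h2, hm1.1, h12, hm2.2, ?_⟩
  have key := S.integral_identity weight_main hm1.1 h12 hm2.2
  have hmem : ∀ h ∈ Icc h1 h2, h ∈ Ioo 0 d := fun h hh =>
    ⟨lt_of_lt_of_le hm1.1 hh.1, lt_of_le_of_lt hh.2 hm2.2⟩
  have hb1 := S.boundary_le (hmem h1 ⟨le_rfl, h12⟩)
  have hb2 := S.boundary_le (hmem h2 ⟨h12, le_rfl⟩)
  have hKint : 2 * π * (h2 - h1) ≤ ∫ h in h1..h2, ∫ t in (0:ℝ)..1, kd x1 y1 x11 y11 (t, h) := by
    have : ∫ _h in h1..h2, 2 * π = 2 * π * (h2 - h1) := by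
      simp
      ring
    rw [← this]
    refine intervalIntegral.integral_mono_on h12 intervalIntegrable_const
      (intervalIntegrable_partial S.cont_kd hm1.1 h12 hm2.2) ?_
    intro h hh
    exact hK h (hmem h hh)
  have hsplit : ∫ h in h1..h2, ∫ t in (0:ℝ)..1,
        |md x1 x2 y1 y2 x11 x12 x22 y11 y12 y22 (t, h)|
      = (∫ h in h1..h2, ∫ t in (0:ℝ)..1,
        psi (nv x1 x2 y1 y2 (t, h)) * md x1 x2 y1 y2 x11 x12 x22 y11 y12 y22 (t, h))
        + ∫ h in h1..h2, ∫ t in (0:ℝ)..1, g (t, h) := by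
    have hc1 : ContinuousOn (fun p => psi (nv x1 x2 y1 y2 p)
        * md x1 x2 y1 y2 x11 x12 x22 y11 y12 y22 p) (stripSet d) :=
      (weight_main.cont.comp_continuousOn S.cont_nv).mul S.cont_md
    rw [← intervalIntegral.integral_add (intervalIntegrable_partial hc1 hm1.1 h12 hm2.2)
      (intervalIntegrable_partial hgc hm1.1 h12 hm2.2)]
    apply intervalIntegral.integral_congr
    intro h hh
    rw [uIcc_of_le h12] at hh
    have hh' := hmem h hh
    simp only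
    rw [← intervalIntegral.integral_add ((cont_slice_t hc1 hh').intervalIntegrable _ _)
      ((cont_slice_t hgc hh').intervalIntegrable _ _)]
    apply intervalIntegral.integral_congr
    intro t _
    simp only [hg, defect]
    ring
  have hgbig : ε ≤ ∫ h in h1..h2, ∫ t in (0:ℝ)..1, g (t, h) := by
    refine intervalIntegral.integral_mono_interval h1a.le hab.le h2b.le ?_
      (intervalIntegrable_partial hgc hm1.1 h12 hm2.2)
    rw [Filter.EventuallyLE, ae_restrict_iff' measurableSet_Ioc]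
    refine Filter.Eventually.of_forall ?_
    intro h hh
    exact hGn h (hmem h ⟨hh.1.le, hh.2⟩)
  rw [hsplit, key]
  have e1 := abs_le.1 hb1
  have e2 := abs_le.1 hb2
  have e3 : ε / (32 * π) * (2 * π) = ε / 16 := by
    field_simp
    ring
  have e4 : 2 * π * h1 < ε / 16 := by nlinarith
  have e5 : 2 * π * (d - h2) < ε / 16 := by nlinarith
  nlinarith [e1.1, e1.2, e2.1, e2.2]

/-- Lower bound in terms of the lower Lebesgue integral. -/
theorem Strip.lower_bound_lintegral (S : Strip x1 x2 y1 y2 x11 x12 x22 y11 y12 y22 d) (hd : 0 < d)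
    (hlen0 : Tendsto (len x1 y1) (𝓝[>] 0) (𝓝 0)) (hlend : Tendsto (len x1 y1) (𝓝[<] d) (𝓝 0))
    (hK : ∀ h ∈ Ioo 0 d, 2 * π ≤ ∫ t in (0:ℝ)..1, kd x1 y1 x11 y11 (t, h))
    (hcond : ∀ p ∈ stripSet d, -1 < psi (nv x1 x2 y1 y2 p) ∨
      0 ≤ md x1 x2 y1 y2 x11 x12 x22 y11 y12 y22 p) :
    ENNReal.ofReal (π * d) < ∫⁻ h in Ioo 0 d, ∫⁻ t in Ioo (0:ℝ) 1,
      ENNReal.ofReal (|md x1 x2 y1 y2 x11 x12 x22 y11 y12 y22 (t, h)| / 2) := by
  obtain ⟨h1, h2, h0, h12, h2d, hlt⟩ := S.lower_bound hd hlen0 hlend hK hcond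
  set m := md x1 x2 y1 y2 x11 x12 x22 y11 y12 y22 with hm
  have hmc : ContinuousOn (fun p => |m p| / 2) (stripSet d) := S.cont_md.abs.div_const 2
  have hmem : ∀ h ∈ Icc h1 h2, h ∈ Ioo 0 d := fun h hh =>
    ⟨lt_of_lt_of_le h0 hh.1, lt_of_le_of_lt hh.2 h2d⟩
  have step1 : ∫⁻ h in Ioc h1 h2, ∫⁻ t in Ioo (0:ℝ) 1, ENNReal.ofReal (|m (t, h)| / 2)
      ≤ ∫⁻ h in Ioo 0 d, ∫⁻ t in Ioo (0:ℝ) 1, ENNReal.ofReal (|m (t, h)| / 2) := by
    apply lintegral_mono_set
    intro h hh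
    exact hmem h ⟨hh.1.le, hh.2⟩
  refine lt_of_lt_of_le ?_ step1
  have step2 : ∫⁻ h in Ioc h1 h2, ∫⁻ t in Ioo (0:ℝ) 1, ENNReal.ofReal (|m (t, h)| / 2)
      = ∫⁻ h in Ioc h1 h2, ENNReal.ofReal (∫ t in (0:ℝ)..1, |m (t, h)| / 2) := by
    apply setLIntegral_congr_fun measurableSet_Ioc
    intro h hh
    have hh' := hmem h ⟨hh.1.le, hh.2⟩
    simp only
    rw [intervalIntegral.integral_of_le zero_le_one, integral_Ioc_eq_integral_Ioo,
      ofReal_integral_eq_lintegral_ofReal]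
    · have := (cont_slice_t hmc hh').continuousOn (s := Icc 0 1)
      exact (this.integrableOn_Icc).mono_set Ioo_subset_Icc_self
    · exact Filter.Eventually.of_forall fun t => by positivity
  rw [step2, ← ofReal_integral_eq_lintegral_ofReal, ← intervalIntegral.integral_of_le h12]
  · apply (ENNReal.ofReal_lt_ofReal_iff ?_).2
    · simp_rw [intervalIntegral.integral_div]
      linarith
    · simp_rw [intervalIntegral.integral_div]
      have : 0 < 2 * π * d := by positivity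
      linarith
  · exact (intervalIntegrable_iff_integrableOn_Ioc_of_le h12).1
      (intervalIntegrable_partial hmc h0 h12 h2d)
  · exact Filter.Eventually.of_forall fun h =>
      intervalIntegral.integral_nonneg zero_le_one fun t _ => by positivity

end Pool.Agent.Lib.MP_bea121_gt
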